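import Mathlib
import Pool.Agent.W953.NW.Graph

/-!
# Circuits with several outputs: few NOT gates on few slices, and back
-/

set_option autoImplicit false

namespace Pool.Agent.W953.RD

open Pool.Agent.H540R2 Pool.Agent.H540R2.Circuit Pool.Agent.W953.NW

variable {n m : ℕ}

/-- the function is computed at a node -/
def AvE (P : Circuit n) (f : BF n) : Prop := ∃ d, Av P f d

lemma AvE.ext {P P' : Circuit n} (h : Ext P P') {f : BF n} (hf : AvE P f) : AvE P' f := by
  obtain ⟨d, hd⟩ := hf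
  exact ⟨d, hd.ext h⟩

lemma AvE.size {P : Circuit n} {f : BF n} (hf : AvE P f) : Av P f P.size := by
  obtain ⟨d, a, h1, h2, h3⟩ := hf
  refine ⟨a, h1, h2, ?_⟩
  cases a with
  | var i => exact Nat.zero_le _
  | const b => exact Nat.zero_le _
  | gate j =>
    have hj : j < P.size := h1 j (by simp [Node.wires])
    have := gateDepth_le_size P j hj
    show P.gateDepth j ≤ P.size
    omega

lemma AvE.and {P : Circuit n} {f g : BF n} (hf : AvE P f) (hg : AvE P g) :
    ∃ P' : Circuit n, Stp P P' 1 0 ∧ AvE P' (fun x => f x && g x) := by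
  obtain ⟨d, hd⟩ := hf
  obtain ⟨e, he⟩ := hg
  obtain ⟨P', h1, h2⟩ := hd.and he
  exact ⟨P', h1, _, h2⟩

lemma AvE.or {P : Circuit n} {f g : BF n} (hf : AvE P f) (hg : AvE P g) :
    ∃ P' : Circuit n, Stp P P' 1 0 ∧ AvE P' (fun x => f x || g x) := by
  obtain ⟨d, hd⟩ := hf
  obtain ⟨e, he⟩ := hg
  obtain ⟨P', h1, h2⟩ := hd.or he
  exact ⟨P', h1, _, h2⟩

lemma AvE.not {P : Circuit n} {f : BF n} (hf : AvE P f) :
    ∃ P' : Circuit n, Stp P P' 1 1 ∧ AvE P' (fun x => !(f x)) := by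
  obtain ⟨d, hd⟩ := hf
  obtain ⟨P', h1, h2⟩ := hd.not
  exact ⟨P', h1, _, h2⟩

/-- finite families of properties -/
lemma Stp.allP (P : Circuit n) (Q : ℕ → Circuit n → Prop)
    (hQ : ∀ j P P', Ext P P' → Q j P → Q j P') (s t : ℕ) : ∀ k : ℕ,
    (∀ j < k, ∀ P', Ext P P' → ∃ P'' : Circuit n, Stp P' P'' s t ∧ Q j P'') →
    ∃ P' : Circuit n, Stp P P' (k * s) (k * t) ∧ ∀ j < k, Q j P' := by
  intro k
  induction k with
  | zero =>
    intro _
    exact ⟨P, Stp.refl _ _ _, fun j hj => absurd hj (Nat.not_lt_zero j)⟩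
  | succ k ih =>
    intro h
    obtain ⟨P1, s1, a1⟩ := ih (fun j hj => h j (by omega))
    obtain ⟨P2, s2, a2⟩ := h k (Nat.lt_succ_self k) P1 s1.1
    refine ⟨P2, (s1.trans s2).le (by rw [Nat.succ_mul]) (by rw [Nat.succ_mul]), fun j hj => ?_⟩
    rcases Nat.lt_succ_iff_lt_or_eq.mp hj with h' | rfl
    · exact hQ j _ _ s2.1 (a1 j h')
    · exact a2

/-- Appending a circuit, all nodes. -/
lemma AvE.app (P : Circuit n) (Q : Circuit m) (g : Fin m → BF n) (hg : ∀ i, AvE P (g i)) :
    ∃ P' : Circuit n, Stp P P' Q.size Q.nots ∧ ∀ b : Node m, (∀ j, b.wires j ≠ 0 → j < Q.size) →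
      AvE P' (fun x => b.eval (fun i => g i x) (Q.val (fun i => g i x))) := by
  choose ν h1 h2 h3 using fun i => (hg i).size
  refine ⟨NW.app P Q ν h1, ⟨app_ext P Q ν h1, le_rfl, (app_nots P Q ν h1).le⟩, fun b hb => ?_⟩
  refine ⟨_, mapNode ν P.size b, ?_, fun x => ?_, le_rfl⟩
  · intro j hj
    show j < P.size + Q.size
    cases b with
    | var i => exact lt_of_lt_of_le (h1 i j hj) (Nat.le_add_right _ _)
    | const b => exact absurd rfl hj
    | gate i =>
      have hi := hb i (by simp [Node.wires])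
      simp only [mapNode, Node.wires] at hj
      split_ifs at hj with h
      · omega
      · exact absurd rfl hj
  · have hy : (fun i => (ν i).eval x (P.val x)) = fun i => g i x := funext fun i => h2 i x
    beta_reduce
    rw [← hy]
    apply mapNode_eval
    · intro i
      exact (app_ext P Q ν h1).node_eval x (h1 i)
    · intro k hk
      exact app_val P Q ν h1 x k (hb k hk)

/-- The binary search for several functions needs `r` NOT gates. -/
theorem sel_multi (m r : ℕ) : ∀ (P : Circuit n) (F : ℕ → ℕ → BF n) (t : ℕ → BF n),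
    (∀ o < m, ∀ j < 2 ^ r, AvE P (F o j)) → (∀ i < 2 ^ r, AvE P (t i)) →
    ∃ P' : Circuit n, Stp P P' (6 * 2 ^ r * (m + 1)) r ∧
      ∀ o < m, AvE P' (fun x => sel r (fun j => F o j x) (fun i => t i x)) := by
  induction r with
  | zero =>
    intro P F t hF _
    refine ⟨P, Stp.refl _ _ _, fun o ho => ?_⟩
    exact hF o ho 0 (by simp)
  | succ r ih =>
    intro P F t hF ht
    have hp : 2 ^ (r + 1) = 2 * 2 ^ r := by ring
    have hpos : 1 ≤ 2 ^ r := Nat.one_le_two_pow
    obtain ⟨P1, p1, y⟩ := (ht (2 ^ r) (by omega)).not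
    obtain ⟨P2, p2, a2⟩ := Stp.allP P1 (fun o P => ∀ j < 2 ^ r, AvE P
      (fun x => (F o j x && !(t (2 ^ r) x)) || (F o (2 ^ r + j) x && t (2 ^ r) x)))
      (fun o P P' h h' j hj => (h' j hj).ext h) (2 ^ r * 3) (2 ^ r * 0) m (fun o ho P' hP' => by
        refine Stp.allP P' (fun j P => AvE P
          (fun x => (F o j x && !(t (2 ^ r) x)) || (F o (2 ^ r + j) x && t (2 ^ r) x)))
          (fun j P P' h h' => h'.ext h) 3 0 (2 ^ r) (fun j hj P'' hP'' => ?_)
        obtain ⟨Q1, q1, b1⟩ := ((((hF o ho j (by omega)).ext p1.1).ext hP').ext hP'').and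
          ((y.ext hP').ext hP'')
        obtain ⟨Q2, q2, b2⟩ := (((((hF o ho (2 ^ r + j) (by omega)).ext p1.1).ext hP').ext
          hP'').ext q1.1).and (((((ht (2 ^ r) (by omega)).ext p1.1).ext hP').ext hP'').ext q1.1)
        obtain ⟨Q3, q3, b3⟩ := (b1.ext q2.1).or b2
        exact ⟨Q3, ((q1.trans q2).trans q3).le (by norm_num) (by norm_num), b3⟩)
    obtain ⟨P3, p3, a3⟩ := Stp.allP P2 (fun i P => AvE P
      (fun x => (t i x && !(t (2 ^ r) x)) || t (2 ^ r + i) x))
      (fun i P P' h h' => h'.ext h) 2 0 (2 ^ r) (fun i hi P' hP' => by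
        obtain ⟨Q1, q1, b1⟩ := ((((ht i (by omega)).ext p1.1).ext p2.1).ext hP').and
          ((y.ext p2.1).ext hP')
        obtain ⟨Q3, q3, b3⟩ := b1.or
          (((((ht (2 ^ r + i) (by omega)).ext p1.1).ext p2.1).ext hP').ext q1.1)
        exact ⟨Q3, (q1.trans q3).le (by norm_num) (by norm_num), b3⟩)
    obtain ⟨P4, p4, a4⟩ := ih P3
      (fun o j x => (F o j x && !(t (2 ^ r) x)) || (F o (2 ^ r + j) x && t (2 ^ r) x))
      (fun i x => (t i x && !(t (2 ^ r) x)) || t (2 ^ r + i) x)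
      (fun o ho j hj => (a2 o ho j hj).ext p3.1) a3
    refine ⟨P4, (((p1.trans p2).trans p3).trans p4).le ?_ (by omega), fun o ho => a4 o ho⟩
    have e1 : 6 * 2 ^ (r + 1) * (m + 1) = 6 * 2 ^ r * (m + 1) + 6 * (m * 2 ^ r) + 6 * 2 ^ r := by
      rw [hp]; ring
    have e2 : m * (2 ^ r * 3) = 3 * (m * 2 ^ r) := by ring
    omega

/-- the size of the inverters -/
def isz (n r : ℕ) : ℕ := n * (2 ^ r * 2 ^ tde n) + 2 ^ r * 2 ^ tde n + 6 * 2 ^ r * (n + 1)

/-- inverters on a window -/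
theorem inverters (k₀ r : ℕ) : ∃ P : Circuit n, P.nots ≤ r ∧ P.size ≤ isz n r ∧
    ∀ i : Fin n, ∃ f : BF n, AvE P f ∧ ∀ x, k₀ ≤ wt x → wt x < k₀ + 2 ^ r → f x = !(x i) := by
  obtain ⟨P1, p1, a1⟩ := Stp.allP (Circuit.empty n) (fun o P => ∀ j < 2 ^ r, ∀ ho : o < n,
      AvE P (fun x => thr (k₀ + j) (off ⟨o, ho⟩ x)))
    (fun o P P' h h' j hj ho => (h' j hj ho).ext h) (2 ^ r * 2 ^ tde n) (2 ^ r * 0) n
    (fun o ho P' _ => by
      obtain ⟨P'', q1, q2⟩ := Stp.allP P' (fun j P => AvE P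
          (fun x => thr (k₀ + j) (off ⟨o, ho⟩ x)))
        (fun j P P' h h' => h'.ext h) (2 ^ tde n) 0 (2 ^ r) (fun j _ P'' _ => by
          obtain ⟨Q, q1, q2⟩ := (MC.off (thr_mc (n := n) (k₀ + j)) ⟨o, ho⟩).av P''
          exact ⟨Q, q1.le (Nat.sub_le _ _) le_rfl, _, q2⟩)
      exact ⟨P'', q1, fun j hj _ => q2 j hj⟩)
  obtain ⟨P2, p2, a2⟩ := Stp.allP P1 (fun i P => AvE P (thr (k₀ + i)))
    (fun i P P' h h' => h'.ext h) (2 ^ tde n) 0 (2 ^ r) (fun i _ P' _ => by
      obtain ⟨Q, q1, q2⟩ := (thr_mc (n := n) (k₀ + i)).av P'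
      exact ⟨Q, q1.le (Nat.sub_le _ _) le_rfl, _, q2⟩)
  obtain ⟨P3, p3, a3⟩ := sel_multi n r P2
    (fun o j => if ho : o < n then fun x => thr (k₀ + j) (off ⟨o, ho⟩ x) else fun _ => false)
    (fun i => thr (k₀ + i)) (fun o ho j hj => by
      rw [dif_pos ho]
      exact (a1 o ho j hj ho).ext p2.1) a2
  have hs := (p1.trans p2).trans p3
  refine ⟨P3, ?_, ?_, fun i => ⟨_, a3 i.val i.isLt, fun x hx1 hx2 => ?_⟩⟩
  · have := hs.2.2
    rw [empty_nots] at this
    omega
  · have h1 := hs.2.1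
    have h2 : (Circuit.empty n).size = 0 := rfl
    unfold isz
    omega
  · simp only [dif_pos i.isLt]
    rw [sel_spec r _ _ (wt x - k₀) (by omega)]
    · rw [show k₀ + (wt x - k₀) = wt x by omega]
      cases hx : x i with
      | false =>
        have h3 : off i x = x := off_false hx
        show thr (wt x) (off i x) = _
        rw [h3]
        simp [thr]
      | true =>
        have h3 := wt_off_true hx
        show thr (wt x) (off i x) = _
        simp [thr]
        omega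
    · intro j _ hj
      simp only [thr, decide_eq_true_eq]
      omega
    · intro j hj _
      simp only [thr, decide_eq_false_iff_not]
      omega

/-- **Several outputs on a window.** -/
theorem window_multi (C : Circuit n) (k₀ r : ℕ) : ∃ C' : Circuit n, C'.nots ≤ r ∧
    C'.size ≤ isz n r + 2 * C.size ∧ ∀ a : Node n, (∀ j, a.wires j ≠ 0 → j < C.size) →
      ∃ a' : Node n, (∀ j, a'.wires j ≠ 0 → j < C'.size) ∧
        ∀ x, k₀ ≤ wt x → wt x < k₀ + 2 ^ r → a'.eval x (C'.val x) = a.eval x (C.val x) := by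
  obtain ⟨P, p1, p2, p3⟩ := inverters (n := n) k₀ r
  choose f f1 f2 using p3
  obtain ⟨G, hG⟩ : ∃ G : Fin (n + n) → BF n, G = Fin.addCases (fun i x => x i) f := ⟨_, rfl⟩
  have hGl : ∀ i x, G (Fin.castAdd n i) x = x i := by
    intro i x; simp only [hG, Fin.addCases_left]
  have hGr : ∀ i x, G (Fin.natAdd n i) x = f i x := by
    intro i x; simp only [hG, Fin.addCases_right]
  obtain ⟨P', q1, q2⟩ := AvE.app P (dual C) G (fun p => by
    refine Fin.addCases (fun i => ?_) (fun i => ?_) p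
    · have : G (Fin.castAdd n i) = fun x => x i := funext (hGl i)
      rw [this]
      exact ⟨0, Av.var P i 0⟩
    · have : G (Fin.natAdd n i) = f i := funext (hGr i)
      rw [this]
      exact f1 i)
  refine ⟨P', ?_, ?_, fun a ha => ?_⟩
  · have h1 := q1.2.2
    have h2 : (dual C).nots = 0 := (nots_eq_zero_iff _).mpr (dual_mono C)
    omega
  · have h1 := q1.2.1
    have h2 : (dual C).size = 2 * C.size := rfl
    omega
  · have hb : ∀ j, (posN a).wires j ≠ 0 → j < (dual C).size := by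
      intro j hj
      obtain ⟨i, hi, hji⟩ := posN_wires hj
      have h2 : (dual C).size = 2 * C.size := rfl
      have := ha i hi
      omega
    obtain ⟨-, a', b1, b2, -⟩ := q2 (posN a) hb
    refine ⟨a', b1, fun x hx1 hx2 => ?_⟩
    rw [b2]
    beta_reduce
    have h3 : (fun i => G i x) = lits x := by
      funext p
      refine Fin.addCases (fun i => ?_) (fun i => ?_) p
      · rw [hGl]
        simp only [lits, Fin.append_left]
      · rw [hGr, f2 i x hx1 hx2]
        simp only [lits, Fin.append_right]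
    rw [h3]
    exact posN_eval x (C.val x) _ a (fun k hk => (dual_val C x k (ha k hk)).1)

/-- the size of the multiplexer -/
def msz (n m r s : ℕ) : ℕ := 2 ^ r * s + 2 ^ r * 2 ^ tde n + 6 * 2 ^ r * (m + 1)

/-- **Slices together.** -/
theorem mux_multi (r s : ℕ) (hr : n < 2 ^ r) (C : ℕ → Circuit n) (hC : ∀ a, (C a).size ≤ s)
    (o : ℕ → Fin m → Node n) (ho : ∀ a i j, (o a i).wires j ≠ 0 → j < (C a).size) :
    ∃ (C' : Circuit n) (o' : Fin m → Node n), C'.size ≤ msz n m r s ∧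
      (∀ i j, (o' i).wires j ≠ 0 → j < C'.size) ∧
      ∀ x i, (o' i).eval x (C'.val x) = (o (wt x) i).eval x ((C (wt x)).val x) := by
  obtain ⟨P1, p1, a1⟩ := Stp.allP (Circuit.empty n) (fun a P => ∀ i : Fin m,
      AvE P (fun x => (o a i).eval x ((C a).val x)))
    (fun a P P' h h' i => (h' i).ext h) s s (2 ^ r) (fun a _ P' _ => by
      obtain ⟨Q, q1, q2⟩ := AvE.app P' (C a) (fun i x => x i) (fun i => ⟨0, Av.var P' i 0⟩)
      have hn : (C a).nots ≤ (C a).size := by
        unfold Circuit.nots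
        refine (Finset.card_filter_le _ _).trans ?_
        rw [Finset.card_range]
      have := hC a
      exact ⟨Q, q1.le this (hn.trans this), fun i => q2 (o a i) (ho a i)⟩)
  obtain ⟨P2, p2, a2⟩ := Stp.allP P1 (fun i P => AvE P (thr i))
    (fun i P P' h h' => h'.ext h) (2 ^ tde n) 0 (2 ^ r) (fun i _ P' _ => by
      obtain ⟨Q, q1, q2⟩ := (thr_mc (n := n) i).av P'
      exact ⟨Q, q1.le (Nat.sub_le _ _) le_rfl, _, q2⟩)
  obtain ⟨P3, p3, a3⟩ := sel_multi m r P2
    (fun i a => if hi : i < m then fun x => (o a ⟨i, hi⟩).eval x ((C a).val x)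
      else fun _ => false)
    (fun i => thr i) (fun i hi a ha => by
      rw [dif_pos hi]
      exact (a1 a ha ⟨i, hi⟩).ext p2.1) a2
  have hs := (p1.trans p2).trans p3
  choose d o' h1 h2 h3 using fun i : Fin m => a3 i.val i.isLt
  refine ⟨P3, o', ?_, h1, fun x i => ?_⟩
  · have h1 := hs.2.1
    have h2 : (Circuit.empty n).size = 0 := rfl
    unfold msz
    omega
  · rw [h2 i x]
    simp only [dif_pos i.isLt]
    have hx := wt_le x
    rw [sel_spec r _ _ (wt x) (by omega)]
    · intro j _ hj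
      simp only [thr, decide_eq_true_eq]
      omega
    · intro j hj _
      simp only [thr, decide_eq_false_iff_not]
      omega

end Pool.Agent.W953.RD
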