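import Mathlib
import Pool.Agent.H679R2.WH.Codes
import Pool.Agent.W953.KC.NMc
import Pool.Agent.W953.NW.Thr

/-!
# Small formulas inside large formulas
-/

set_option autoImplicit false

namespace Pool.Agent.W953.RD

open Pool.Agent.H679R2.WH

/-- substitution -/
def app {X Y : Type} (σ : X → Y ⊕ Bool) (z : Y → Bool) : X → Bool := fun x => Sum.elim z id (σ x)

variable {l n : ℕ}

lemma val_const {A N : ℕ} (hA : 1 ≤ A) (hN : 1 ≤ N) (S : Finset (Fin N)) (b : Bool) :
    ∀ (d : ℕ) (τ : Bool), Val S d τ (fun _ : CIdx A N d => b) ↔ b = true := by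
  intro d
  induction d with
  | zero =>
    intro τ
    cases τ with
    | true =>
      show (∀ l : Fin N × Bool, b = true ∨ lit S l) ↔ b = true
      constructor
      · intro h
        by_contra hb
        have h1 := (h (⟨0, hN⟩, true)).resolve_left hb
        have h2 := (h (⟨0, hN⟩, false)).resolve_left hb
        simp only [lit] at h1 h2
        simp at h1 h2
        exact h2 h1
      · intro h _
        exact Or.inl h
    | false =>
      show (∃ l : Fin N × Bool, b = true ∧ lit S l) ↔ b = true
      constructor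
      · rintro ⟨_, h, _⟩
        exact h
      · intro h
        by_cases h1 : (⟨0, hN⟩ : Fin N) ∈ S
        · exact ⟨(⟨0, hN⟩, true), h, Or.inl ⟨rfl, h1⟩⟩
        · exact ⟨(⟨0, hN⟩, false), h, Or.inr ⟨rfl, h1⟩⟩
  | succ d ih =>
    intro τ
    cases τ with
    | true =>
      show (∀ a : Fin A, Val S d false (fun _ : CIdx A N d => b)) ↔ b = true
      exact ⟨fun h => (ih false).1 (h ⟨0, hA⟩), fun h _ => (ih false).2 h⟩
    | false =>
      show (∃ a : Fin A, Val S d true (fun _ : CIdx A N d => b)) ↔ b = true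
      exact ⟨fun ⟨_, h⟩ => (ih true).1 h, fun h => ⟨⟨0, hA⟩, (ih true).2 h⟩⟩

/-- the bits of a formula that is equivalent to the literal `l₀` -/
def litb {N : ℕ} (l₀ : Fin N × Bool) : ℕ → Bool → (Fin N × Bool) → Bool
  | 0, true, l => decide (l ≠ l₀)
  | 0, false, l => decide (l = l₀)
  | d + 1, τ, l => litb l₀ d (!τ) l

lemma val_lit {A N : ℕ} (hA : 1 ≤ A) (S : Finset (Fin N)) (l₀ : Fin N × Bool) :
    ∀ (d : ℕ) (τ : Bool), Val S d τ (fun i : CIdx A N d => litb l₀ d τ i.2) ↔ lit S l₀ := by
  intro d
  induction d with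
  | zero =>
    intro τ
    cases τ with
    | true =>
      show (∀ l : Fin N × Bool, decide (l ≠ l₀) = true ∨ lit S l) ↔ lit S l₀
      constructor
      · intro h
        exact (h l₀).resolve_left (by simp)
      · intro h l
        by_cases hl : l = l₀
        · rw [hl]; exact Or.inr h
        · exact Or.inl (by simp [hl])
    | false =>
      show (∃ l : Fin N × Bool, decide (l = l₀) = true ∧ lit S l) ↔ lit S l₀
      constructor
      · rintro ⟨l, h1, h2⟩
        rw [decide_eq_true_eq] at h1
        rwa [← h1]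
      · intro h
        exact ⟨l₀, by simp, h⟩
  | succ d ih =>
    intro τ
    cases τ with
    | true =>
      show (∀ a : Fin A, Val S d false (fun i : CIdx A N d => litb l₀ d false i.2)) ↔ _
      exact ⟨fun h => (ih false).1 (h ⟨0, hA⟩), fun h _ => (ih false).2 h⟩
    | false =>
      show (∃ a : Fin A, Val S d true (fun i : CIdx A N d => litb l₀ d true i.2)) ↔ _
      exact ⟨fun ⟨_, h⟩ => (ih true).1 h, fun h => ⟨⟨0, hA⟩, (ih true).2 h⟩⟩

/-- the embedding -/
def emb : (d : ℕ) → Bool → CIdx n n d → CIdx l l d ⊕ Bool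
  | 0, τ, x => if h : x.2.1.val < l then Sum.inl (Fin.elim0, (⟨x.2.1.val, h⟩, x.2.2))
      else Sum.inr τ
  | d + 1, τ, x => if h : (x.1 0).val < l then
      Sum.map (fun y : CIdx l l d => ((Fin.cons ⟨(x.1 0).val, h⟩ y.1, y.2) : CIdx l l (d + 1))) id
        (emb d (!τ) (fun i => x.1 i.succ, x.2))
      else Sum.inr τ

lemma emb_child {d : ℕ} (τ : Bool) (z : CIdx l l (d + 1) → Bool) (a : Fin n) (h : a.val < l) :
    (fun i : CIdx n n d => app (emb (l := l) (d + 1) τ) z (Fin.cons a i.1, i.2)) =
      app (emb d (!τ)) (fun y => z (Fin.cons ⟨a.val, h⟩ y.1, y.2)) := by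
  funext i
  unfold app
  have h0 : ((Fin.cons a i.1 : Fin (d + 1) → Fin n) 0).val < l := by
    rw [Fin.cons_zero]; exact h
  rw [emb, dif_pos h0]
  have h1 : (fun j : Fin d => (Fin.cons a i.1 : Fin (d + 1) → Fin n) j.succ) = i.1 := by
    funext j
    rw [Fin.cons_succ]
  rw [h1]
  rcases emb (l := l) d (!τ) (i.1, i.2) with y | b
  · simp [Sum.map, Fin.cons_zero]
  · simp [Sum.map]

lemma emb_child' {d : ℕ} (τ : Bool) (z : CIdx l l (d + 1) → Bool) (a : Fin n) (h : ¬ a.val < l) :
    (fun i : CIdx n n d => app (emb (l := l) (d + 1) τ) z (Fin.cons a i.1, i.2)) =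
      fun _ => τ := by
  funext i
  unfold app
  have h0 : ¬ ((Fin.cons a i.1 : Fin (d + 1) → Fin n) 0).val < l := by
    rw [Fin.cons_zero]; exact h
  rw [emb, dif_neg h0]
  rfl

lemma val_emb (hl : 1 ≤ l) (hln : l ≤ n) {S : Finset (Fin n)} {S' : Finset (Fin l)}
    (hS : ∀ (v : Fin n) (h : v.val < l), v ∈ S ↔ (⟨v.val, h⟩ : Fin l) ∈ S') :
    ∀ (d : ℕ) (τ : Bool) (z : CIdx l l d → Bool),
      Val S d τ (app (emb d τ) z) ↔ Val S' d τ z := by
  have hlit : ∀ (v : Fin n) (h : v.val < l) (b : Bool),
      lit S (v, b) ↔ lit S' ((⟨v.val, h⟩ : Fin l), b) := by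
    intro v h b
    unfold lit
    simp only [hS v h]
  intro d
  induction d with
  | zero =>
    intro τ z
    have hin : ∀ (v : Fin n) (h : v.val < l) (b : Bool),
        app (emb (l := l) 0 τ) z (Fin.elim0, (v, b)) = z (Fin.elim0, (⟨v.val, h⟩, b)) := by
      intro v h b
      unfold app
      rw [emb, dif_pos h]
      rfl
    have hout : ∀ (v : Fin n) (_ : ¬ v.val < l) (b : Bool),
        app (emb (l := l) 0 τ) z (Fin.elim0, (v, b)) = τ := by
      intro v h b
      unfold app
      rw [emb, dif_neg h]
      rfl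
    cases τ with
    | true =>
      show (∀ l₀ : Fin n × Bool, app (emb (l := l) 0 true) z (Fin.elim0, l₀) = true ∨ lit S l₀) ↔
        ∀ l₀ : Fin l × Bool, z (Fin.elim0, l₀) = true ∨ lit S' l₀
      constructor
      · rintro h ⟨v, b⟩
        have hv : (⟨v.val, lt_of_lt_of_le v.isLt hln⟩ : Fin n).val < l := v.isLt
        have h1 := h (⟨v.val, lt_of_lt_of_le v.isLt hln⟩, b)
        rw [hin _ hv, hlit _ hv] at h1
        exact h1
      · rintro h ⟨v, b⟩
        by_cases hv : v.val < l
        · rw [hin _ hv, hlit _ hv]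
          exact h _
        · exact Or.inl (hout v hv b)
    | false =>
      show (∃ l₀ : Fin n × Bool, app (emb (l := l) 0 false) z (Fin.elim0, l₀) = true ∧
        lit S l₀) ↔ ∃ l₀ : Fin l × Bool, z (Fin.elim0, l₀) = true ∧ lit S' l₀
      constructor
      · rintro ⟨⟨v, b⟩, h1, h2⟩
        by_cases hv : v.val < l
        · rw [hin _ hv] at h1
          rw [hlit _ hv] at h2
          exact ⟨_, h1, h2⟩
        · rw [hout v hv b] at h1
          exact absurd h1 (by simp)
      · rintro ⟨⟨v, b⟩, h1, h2⟩
        have hv : (⟨v.val, lt_of_lt_of_le v.isLt hln⟩ : Fin n).val < l := v.isLt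
        refine ⟨(⟨v.val, lt_of_lt_of_le v.isLt hln⟩, b), ?_, ?_⟩
        · rw [hin _ hv]; exact h1
        · rw [hlit _ hv]; exact h2
  | succ d ih =>
    intro τ z
    have hn : 1 ≤ n := hl.trans hln
    cases τ with
    | true =>
      show (∀ a : Fin n, Val S d false (fun i : CIdx n n d =>
        app (emb (l := l) (d + 1) true) z (Fin.cons a i.1, i.2))) ↔
        ∀ a : Fin l, Val S' d false (fun i => z (Fin.cons a i.1, i.2))
      constructor
      · intro h a
        have h1 := h ⟨a.val, lt_of_lt_of_le a.isLt hln⟩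
        rw [emb_child (n := n) true z ⟨a.val, lt_of_lt_of_le a.isLt hln⟩ a.isLt] at h1
        exact (ih false _).1 h1
      · intro h a
        by_cases ha : a.val < l
        · rw [emb_child true z _ ha]
          exact (ih false _).2 (h _)
        · rw [emb_child' true z _ ha]
          exact (val_const hn hn S true d false).2 rfl
    | false =>
      show (∃ a : Fin n, Val S d true (fun i : CIdx n n d =>
        app (emb (l := l) (d + 1) false) z (Fin.cons a i.1, i.2))) ↔
        ∃ a : Fin l, Val S' d true (fun i => z (Fin.cons a i.1, i.2))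
      constructor
      · rintro ⟨a, h⟩
        by_cases ha : a.val < l
        · rw [emb_child false z _ ha] at h
          exact ⟨_, (ih true _).1 h⟩
        · rw [emb_child' false z _ ha] at h
          have := (val_const hn hn S false d true).1 h
          exact absurd this (by simp)
      · rintro ⟨a, h⟩
        refine ⟨⟨a.val, lt_of_lt_of_le a.isLt hln⟩, ?_⟩
        rw [emb_child (n := n) false z ⟨a.val, lt_of_lt_of_le a.isLt hln⟩ a.isLt]
        exact (ih true _).2 h

/-- the embedding with the requirement that the further variables are false -/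
def top (d : ℕ) (x : CIdx n n (d + 1)) : CIdx l l (d + 1) ⊕ Bool :=
  if (x.1 0).val < l then emb (d + 1) true x else Sum.inr (litb (x.1 0, false) d false x.2)

lemma val_top (hn : 1 ≤ n) {d : ℕ} (S : Finset (Fin n)) (z : CIdx l l (d + 1) → Bool) :
    Val S (d + 1) true (app (top d) z) ↔
      (∀ a : Fin n, ¬ a.val < l → a ∉ S) ∧ Val S (d + 1) true (app (emb (d + 1) true) z) := by
  have h1 : ∀ a : Fin n, a.val < l →
      (fun i : CIdx n n d => app (top (l := l) d) z (Fin.cons a i.1, i.2)) =
      fun i : CIdx n n d => app (emb (l := l) (d + 1) true) z (Fin.cons a i.1, i.2) := by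
    intro a ha
    funext i
    unfold app top
    have h0 : ((Fin.cons a i.1 : Fin (d + 1) → Fin n) 0).val < l := by
      rw [Fin.cons_zero]; exact ha
    rw [if_pos h0]
  have h2 : ∀ a : Fin n, ¬ a.val < l →
      (fun i : CIdx n n d => app (top (l := l) d) z (Fin.cons a i.1, i.2)) =
      fun i : CIdx n n d => litb (a, false) d false i.2 := by
    intro a ha
    funext i
    unfold app top
    have h0 : ¬ ((Fin.cons a i.1 : Fin (d + 1) → Fin n) 0).val < l := by
      rw [Fin.cons_zero]; exact ha
    rw [if_neg h0, Sum.elim_inr]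
    show litb ((Fin.cons a i.1 : Fin (d + 1) → Fin n) 0, false) d false i.2 = _
    rw [Fin.cons_zero]
  have h3 : ∀ a : Fin n, lit S (a, false) ↔ a ∉ S := by
    intro a
    simp [lit]
  show (∀ a : Fin n, Val S d false (fun i : CIdx n n d =>
      app (top (l := l) d) z (Fin.cons a i.1, i.2))) ↔ _ ∧
    ∀ a : Fin n, Val S d false (fun i : CIdx n n d =>
      app (emb (l := l) (d + 1) true) z (Fin.cons a i.1, i.2))
  constructor
  · intro h
    refine ⟨fun a ha => ?_, fun a => ?_⟩
    · have h4 := h a
      rw [h2 a ha, val_lit hn, h3] at h4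
      exact h4
    · by_cases ha : a.val < l
      · rw [← h1 a ha]
        exact h a
      · rw [emb_child' true z a ha]
        exact (val_const hn hn S true d false).2 rfl
  · rintro ⟨h4, h5⟩ a
    by_cases ha : a.val < l
    · rw [h1 a ha]
      exact h5 a
    · rw [h2 a ha, val_lit hn, h3]
      exact h4 a ha

theorem wsat_top (hl : 1 ≤ l) (hln : l ≤ n) (d k : ℕ) (z : CIdx l l (d + 1) → Bool) :
    WSat (d + 1) k (app (top (n := n) d) z) ↔ WSat (d + 1) k z := by
  classical
  have hn : 1 ≤ n := hl.trans hln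
  constructor
  · rintro ⟨S, hS, hv⟩
    rw [val_top hn] at hv
    refine ⟨Finset.univ.filter (fun v : Fin l => Fin.castLE hln v ∈ S), ?_, ?_⟩
    · rw [← hS]
      refine Finset.card_bij (fun v _ => Fin.castLE hln v) (fun v hv => ?_)
        (fun v _ v' _ h => Fin.castLE_injective hln h) (fun v hv' => ?_)
      · exact (Finset.mem_filter.mp hv).2
      · have h1 : v.val < l := by
          by_contra h2
          exact hv.1 v h2 hv'
        exact ⟨⟨v.val, h1⟩, Finset.mem_filter.mpr ⟨Finset.mem_univ _, hv'⟩, rfl⟩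
    · refine (val_emb hl hln (S := S) (fun v h => ?_) (d + 1) true z).1 hv.2
      rw [Finset.mem_filter]
      exact ⟨fun h1 => ⟨Finset.mem_univ _, h1⟩, fun h1 => h1.2⟩
  · rintro ⟨S', hS', hv⟩
    refine ⟨S'.map (Fin.castLEEmb hln), by rw [Finset.card_map]; exact hS', ?_⟩
    rw [val_top hn]
    refine ⟨fun a ha h1 => ?_, ?_⟩
    · obtain ⟨b, -, hb⟩ := Finset.mem_map.mp h1
      apply ha
      rw [← hb]
      exact b.isLt
    · refine (val_emb hl hln (S' := S') (fun v h => ?_) (d + 1) true z).2 hv
      rw [Finset.mem_map]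
      constructor
      · rintro ⟨b, hb, hbv⟩
        subst hbv
        exact hb
      · intro h1
        exact ⟨_, h1, rfl⟩

/-! ### the number of ones -/

/-- the embedding of the indices -/
def back (hln : l ≤ n) {d : ℕ} (y : CIdx l l d) : CIdx n n d :=
  (fun i => Fin.castLE hln (y.1 i), (Fin.castLE hln y.2.1, y.2.2))

lemma emb_back (hln : l ≤ n) : ∀ (d : ℕ) (τ : Bool) (x : CIdx n n d) (y : CIdx l l d),
    emb d τ x = Sum.inl y → back hln y = x := by
  intro d
  induction d with
  | zero =>
    intro τ x y h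
    rw [emb] at h
    split_ifs at h with h1
    have h2 := Sum.inl.inj h
    rw [← h2]
    refine Prod.ext (funext fun i => i.elim0) (Prod.ext (Fin.ext rfl) rfl)
  | succ d ih =>
    intro τ x y h
    rw [emb] at h
    split_ifs at h with h1
    rcases h2 : emb (l := l) d (!τ) (fun i => x.1 i.succ, x.2) with y' | b
    · rw [h2] at h
      have h3 := Sum.inl.inj h
      have h4 := ih _ _ _ h2
      rw [← h3]
      refine Prod.ext (funext fun i => ?_) (by have h5 := congrArg Prod.snd h4; exact h5)
      refine Fin.cases ?_ (fun j => ?_) i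
      · apply Fin.ext
        simp [back]
      · have h5 := congrFun (congrArg Prod.fst h4) j
        simp only [back, Fin.cons_succ] at h5 ⊢
        exact h5
    · rw [h2] at h
      exact absurd h (by simp [Sum.map])

lemma top_back (hln : l ≤ n) (d : ℕ) (x : CIdx n n (d + 1)) (y : CIdx l l (d + 1))
    (h : top d x = Sum.inl y) : back hln y = x := by
  unfold top at h
  split_ifs at h with h1
  exact emb_back hln _ _ _ _ h

/-- the number of ones after a substitution -/
theorem wt_sx {M : ℕ} {ι : Type} [Fintype ι] (ν : Fin M → ι ⊕ Bool) (b : ι → Fin M)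
    (hb : ∀ j y, ν j = Sum.inl y → b y = j) : ∃ a : ℕ, ∀ z : ι → Bool,
    a ≤ NW.wt (KC.sx ν z) ∧ NW.wt (KC.sx ν z) ≤ a + Fintype.card ι := by
  classical
  refine ⟨(Finset.univ.filter (fun j : Fin M => ν j = Sum.inr true)).card, fun z => ⟨?_, ?_⟩⟩
  · refine Finset.card_le_card (fun x hx => ?_)
    rw [Finset.mem_filter] at hx ⊢
    refine ⟨Finset.mem_univ _, ?_⟩
    unfold KC.sx KC.sv
    rw [hx.2]
    rfl
  · unfold NW.wt
    have h1 : (Finset.univ.filter (fun j : Fin M => KC.sx ν z j = true)) ⊆
        (Finset.univ.filter (fun j : Fin M => ν j = Sum.inr true)) ∪ (Finset.univ.image b) := by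
      intro x hx
      rw [Finset.mem_filter] at hx
      rw [Finset.mem_union, Finset.mem_filter, Finset.mem_image]
      have h2 := hx.2
      unfold KC.sx KC.sv at h2
      rcases h : ν x with y | c
      · exact Or.inr ⟨y, Finset.mem_univ _, hb x y h⟩
      · rw [h] at h2
        left
        refine ⟨Finset.mem_univ _, ?_⟩
        have : c = true := h2
        rw [this]
    refine (Finset.card_le_card h1).trans ((Finset.card_union_le _ _).trans
      (Nat.add_le_add_left ?_ _))
    exact Finset.card_image_le.trans (by rw [Finset.card_univ])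

end Pool.Agent.W953.RD
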