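import Mathlib
import Pool.Agent.W953.RD.Emb
import Pool.Agent.W953.RD.Multi
import Pool.Agent.W953.KC.Any
import Pool.Agent.H679R2.WH.Final

/-!
# Reductions between the levels of the W-hierarchy
-/

set_option autoImplicit false

namespace Pool.Agent.W953.RD

open Filter Pool.Agent.H540R2 Pool.Agent.H540R2.Circuit Pool.Agent.W953.NW
open Pool.Agent.H679R2.WH (CIdx TIdx WSat TSat)

/-- The circuit `C` with the outputs `o` maps the code `x` of a formula of `Γ_{d+2,1}` to the code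
of a formula of `Γ_{d+1,1}` (a 2-CNF if `d = 0`), and if the number `s` of ones of `x` satisfies
`P s` then the first formula is `k`-satisfiable if and only if the second one is
`g`-satisfiable. -/
def Reduces {A N A' N' M : ℕ} (d k g : ℕ) (e : CIdx A N (d + 1) ≃ Fin M) (C : Circuit M)
    (o : TIdx A' N' d → Node M) (P : ℕ → Prop) : Prop :=
  (∀ i j, (o i).wires j ≠ 0 → j < C.size) ∧
  ∀ x : Fin M → Bool, P (wt x) →
    (WSat (d + 1) k (fun i => x (e i)) ↔ TSat g d (fun i => (o i).eval x (C.val x)))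

/-- There are nonuniform reductions of fpt size. -/
def Red (d : ℕ) : Prop := ∃ (f g : ℕ → ℕ) (c : ℕ), ∀ (k A N M : ℕ)
  (e : CIdx A N (d + 1) ≃ Fin M), ∃ A' N' g' : ℕ, A' ≤ f k * (M + 2) ^ c ∧
    N' ≤ f k * (M + 2) ^ c ∧ g' ≤ g k ∧
    ∃ (C : Circuit M) (o : TIdx A' N' d → Node M), C.size ≤ f k * (M + 2) ^ c ∧
      Reduces d k g' e C o (fun _ => True)

/-- There are such reductions with at most `t M` NOT gates for every window of `W M` consecutive
numbers of ones. -/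
def RedOn (d : ℕ) (t W : ℕ → ℕ) : Prop := ∃ (f g : ℕ → ℕ) (c : ℕ), ∀ (k A N M : ℕ)
  (e : CIdx A N (d + 1) ≃ Fin M), ∃ A' N' g' : ℕ, A' ≤ f k * (M + 2) ^ c ∧
    N' ≤ f k * (M + 2) ^ c ∧ g' ≤ g k ∧
    ∀ a : ℕ, ∃ (C : Circuit M) (o : TIdx A' N' d → Node M), C.nots ≤ t M ∧
      C.size ≤ f k * (M + 2) ^ c ∧ Reduces d k g' e C o (fun s => a ≤ s ∧ s < a + W M)

lemma pow_two_log (M : ℕ) : 2 ^ (Nat.log 2 M + 1) ≤ 2 * (M + 2) := by
  have := Pool.Agent.W953.KC.two_pow_log M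
  rw [pow_succ]
  omega

lemma tde_le' (M : ℕ) : 2 ^ tde M ≤ 2 ^ 18 * (M + 2) ^ 12 :=
  (Pool.Agent.W953.KC.tde_pow M).trans
    (Nat.mul_le_mul_left _ (Nat.pow_le_pow_left (by omega) _))

/-- the equivalence of the output indices -/
lemma tidx_equiv (A N d Q : ℕ) (hA : A ≤ Q) (hN : N ≤ Q) :
    ∃ m : ℕ, m ≤ (2 * Q + 2) ^ (d + 2) ∧ Nonempty (TIdx A N d ≃ Fin m) := by
  cases d with
  | zero =>
    refine ⟨(N * 2) * (N * 2), ?_, ⟨?_⟩⟩
    · calc (N * 2) * (N * 2) ≤ (2 * Q + 2) * (2 * Q + 2) :=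
            Nat.mul_le_mul (by omega) (by omega)
        _ = (2 * Q + 2) ^ (0 + 2) := by ring
    · refine Fintype.equivFinOfCardEq (α := (Fin N × Bool) × (Fin N × Bool)) ?_
      simp
  | succ d =>
    refine ⟨A ^ (d + 1) * (N * 2), ?_, ⟨?_⟩⟩
    · calc A ^ (d + 1) * (N * 2) ≤ (2 * Q + 2) ^ (d + 1) * (2 * Q + 2) :=
            Nat.mul_le_mul (Nat.pow_le_pow_left (by omega) _) (by omega)
        _ = (2 * Q + 2) ^ (d + 2) := by ring
        _ ≤ (2 * Q + 2) ^ (d + 1 + 2) := Nat.pow_le_pow_right (by omega) (by omega)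
    · refine Fintype.equivFinOfCardEq (α := CIdx A N (d + 1)) ?_
      simp

theorem red_iff (d : ℕ) (t W : ℕ → ℕ) (hW : ∀ M, 1 ≤ W M ∧ W M ≤ 2 ^ t M) :
    RedOn d t W ↔ Red d := by
  constructor
  · rintro ⟨f, g, c, h⟩
    refine ⟨fun k => 2 * f k + 2 ^ 19 + 12 * ((2 * f k + 2) ^ (d + 2) + 1), g,
      c * (d + 2) + 13, fun k A N M e => ?_⟩
    obtain ⟨A', N', g', h1, h2, h3, h4⟩ := h k A N M e
    choose C o c1 c2 c3 using h4
    obtain ⟨m, hm, ⟨E⟩⟩ := tidx_equiv A' N' d _ h1 h2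
    obtain ⟨C', o', q1, q2, q3⟩ := mux_multi (n := M) (m := m) (Nat.log 2 M + 1)
      (f k * (M + 2) ^ c) (Nat.lt_pow_succ_log_self (by norm_num) M) C c2
      (fun a i => o a (E.symm i)) (fun a i j => (c3 a).1 (E.symm i) j)
    obtain ⟨F, hF⟩ : ∃ F, F = 2 * f k + 2 ^ 19 + 12 * ((2 * f k + 2) ^ (d + 2) + 1) := ⟨_, rfl⟩
    have hFf : f k ≤ F := by omega
    have hcc : c ≤ c * (d + 2) + 13 := by nlinarith
    have hle : f k * (M + 2) ^ c ≤ F * (M + 2) ^ (c * (d + 2) + 13) :=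
      Nat.mul_le_mul hFf (Nat.pow_le_pow_right (by omega) hcc)
    beta_reduce
    rw [← hF]
    refine ⟨A', N', g', h1.trans hle, h2.trans hle, h3, C', fun i => o' (E i), ?_,
      fun i => q2 (E i), fun x _ => ?_⟩
    · refine q1.trans ?_
      unfold msz
      obtain ⟨B, hB⟩ : ∃ B, B = M + 2 := ⟨_, rfl⟩
      have e1 := pow_two_log M
      have e2 := tde_le' M
      rw [← hB] at e1 e2 hm ⊢
      have hB1 : 1 ≤ B := by omega
      have p1 : ∀ i j, i ≤ j → B ^ i ≤ B ^ j := fun i j hij => Nat.pow_le_pow_right hB1 hij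
      obtain ⟨D, hD⟩ : ∃ D, D = B ^ (c * (d + 2) + 12) := ⟨_, rfl⟩
      have e3 : m + 1 ≤ ((2 * f k + 2) ^ (d + 2) + 1) * D := by
        have e4 : (2 * (f k * B ^ c) + 2) ^ (d + 2) ≤ (2 * f k + 2) ^ (d + 2) * D := by
          calc (2 * (f k * B ^ c) + 2) ^ (d + 2) ≤ ((2 * f k + 2) * B ^ c) ^ (d + 2) := by
                refine Nat.pow_le_pow_left ?_ _
                have : 1 ≤ B ^ c := Nat.one_le_pow _ _ hB1
                have e5 : (2 * f k + 2) * B ^ c = 2 * (f k * B ^ c) + 2 * B ^ c := by ring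
                omega
            _ = (2 * f k + 2) ^ (d + 2) * B ^ (c * (d + 2)) := by
                rw [mul_pow, ← pow_mul]
            _ ≤ (2 * f k + 2) ^ (d + 2) * D := by
                rw [hD]
                exact Nat.mul_le_mul_left _ (p1 _ _ (by omega))
        have e6 : 1 ≤ D := by rw [hD]; exact Nat.one_le_pow _ _ hB1
        have e7 : ((2 * f k + 2) ^ (d + 2) + 1) * D = (2 * f k + 2) ^ (d + 2) * D + D := by ring
        omega
      have e8 : f k * B ^ c ≤ f k * D := by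
        rw [hD]
        exact Nat.mul_le_mul_left _ (p1 _ _ (by nlinarith))
      have e9 : 2 ^ tde M ≤ 2 ^ 18 * D := by
        refine e2.trans (Nat.mul_le_mul_left _ ?_)
        rw [hD]
        exact p1 _ _ (by omega)
      obtain ⟨R, hR⟩ : ∃ R, R = 2 ^ (Nat.log 2 M + 1) := ⟨_, rfl⟩
      rw [← hR] at e1 ⊢
      calc R * (f k * B ^ c) + R * 2 ^ tde M + 6 * R * (m + 1)
          ≤ (2 * B) * (f k * D) + (2 * B) * (2 ^ 18 * D) +
              6 * (2 * B) * (((2 * f k + 2) ^ (d + 2) + 1) * D) := by gcongr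
        _ = F * (B * D) := by rw [hF]; ring
        _ = F * B ^ (c * (d + 2) + 13) := by rw [hD]; ring
    · have h5 := (c3 (wt x)).2 x ⟨le_rfl, by have := (hW M).1; omega⟩
      rw [h5]
      have h6 : (fun i => (o' (E i)).eval x (C'.val x)) =
          fun i => (o (wt x) i).eval x ((C (wt x)).val x) := by
        funext i
        rw [q3 x (E i)]
        simp
      rw [h6]
  · rintro ⟨f, g, c, h⟩
    refine ⟨fun k => 2 * f k + 2 ^ 20, g, c + 14, fun k A N M e => ?_⟩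
    obtain ⟨A', N', g', h1, h2, h3, C, o, h4, h5⟩ := h k A N M e
    obtain ⟨F, hF⟩ : ∃ F, F = 2 * f k + 2 ^ 20 := ⟨_, rfl⟩
    have hle : f k * (M + 2) ^ c ≤ F * (M + 2) ^ (c + 14) :=
      Nat.mul_le_mul (by omega) (Nat.pow_le_pow_right (by omega) (by omega))
    beta_reduce
    rw [← hF]
    refine ⟨A', N', g', h1.trans hle, h2.trans hle, h3, fun a => ?_⟩
    obtain ⟨C', q1, q2, q3⟩ := window_multi C a (min (t M) (Nat.log 2 M + 1))
    choose o' r1 r2 using fun i : TIdx A' N' d => q3 (o i) (h5.1 i)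
    refine ⟨C', o', q1.trans (min_le_left _ _), q2.trans ?_, r1, fun x hx => ?_⟩
    · unfold isz
      obtain ⟨B, hB⟩ : ∃ B, B = M + 2 := ⟨_, rfl⟩
      have e1 := pow_two_log M
      have e2 := tde_le' M
      rw [← hB] at e1 e2 h4 ⊢
      have hB1 : 1 ≤ B := by omega
      obtain ⟨R, hR⟩ : ∃ R, R = 2 ^ (min (t M) (Nat.log 2 M + 1)) := ⟨_, rfl⟩
      have e3 : R ≤ 2 * B := by
        rw [hR]
        exact (Nat.pow_le_pow_right (by norm_num) (min_le_right _ _)).trans e1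
      rw [← hR]
      have e4 : B ^ 2 ≤ B ^ 14 := Nat.pow_le_pow_right hB1 (by norm_num)
      have e5 : B ^ 13 ≤ B ^ 14 := Nat.pow_le_pow_right hB1 (by norm_num)
      have e6 : 1 ≤ B ^ c := Nat.one_le_pow _ _ hB1
      have e7 : 1 ≤ B ^ 14 := Nat.one_le_pow _ _ hB1
      calc M * (R * 2 ^ tde M) + R * 2 ^ tde M + 6 * R * (M + 1) + 2 * C.size
          ≤ B * ((2 * B) * (2 ^ 18 * B ^ 12)) + 0 + 12 * B ^ 2 + 2 * C.size := by
            have e8 : R * 2 ^ tde M ≤ (2 * B) * (2 ^ 18 * B ^ 12) := Nat.mul_le_mul e3 e2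
            have e9 : M * (R * 2 ^ tde M) + R * 2 ^ tde M = (M + 1) * (R * 2 ^ tde M) := by ring
            have e10 : (M + 1) * (R * 2 ^ tde M) ≤ B * ((2 * B) * (2 ^ 18 * B ^ 12)) :=
              Nat.mul_le_mul (by omega) e8
            have e11 : 6 * R * (M + 1) ≤ 6 * (2 * B) * B :=
              Nat.mul_le_mul (Nat.mul_le_mul_left _ e3) (by omega)
            have e12 : 6 * (2 * B) * B = 12 * B ^ 2 := by ring
            omega
        _ ≤ 2 ^ 20 * B ^ 14 + 2 * (f k * B ^ c) := by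
            have e8 : B * ((2 * B) * (2 ^ 18 * B ^ 12)) = 2 ^ 19 * B ^ 14 := by ring
            omega
        _ ≤ 2 ^ 20 * (B ^ c * B ^ 14) + 2 * (f k * (B ^ c * B ^ 14)) := by
            have e8 : B ^ 14 ≤ B ^ c * B ^ 14 := Nat.le_mul_of_pos_left _ e6
            have e9 : B ^ c ≤ B ^ c * B ^ 14 := Nat.le_mul_of_pos_right _ e7
            gcongr
        _ = F * B ^ (c + 14) := by rw [hF, pow_add]; ring
    · have h6 := h5.2 x trivial
      rw [h6]
      have h7 : (fun i => (o' i).eval x (C'.val x)) = fun i => (o i).eval x (C.val x) := by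
        funext i
        refine r2 i x hx.1 ?_
        rcases le_total (t M) (Nat.log 2 M + 1) with h8 | h8
        · rw [min_eq_left h8]
          have := (hW M).2
          omega
        · rw [min_eq_right h8]
          have h9 : M < 2 ^ (Nat.log 2 M + 1) := Nat.lt_pow_succ_log_self (by norm_num) M
          have := wt_le x
          omega
      rw [h7]

end Pool.Agent.W953.RD
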