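import Mathlib
import Pool.Agent.W953.RD.WH

/-!
# No reductions on wide windows
-/

set_option autoImplicit false

namespace Pool.Agent.W953.RD

open Filter Pool.Agent.H540R2 Pool.Agent.H540R2.Circuit Pool.Agent.W953.NW Pool.Agent.W953.KC
open Pool.Agent.H679R2.WH (CIdx TIdx WSat TSat OneSigned)

lemma card_cidx (n d : ℕ) : Fintype.card (CIdx n n (d + 1)) = 2 * n ^ (d + 2) := by
  simp only [Fintype.card_prod, Fintype.card_fun, Fintype.card_fin, Fintype.card_bool]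
  ring

/-- all nodes of a built circuit -/
lemma wireOf_eval' {n : ℕ} {ι : Type} (ν : Fin n → ι ⊕ Bool) (C : Circuit n) (z : ι → Bool)
    (a : Node n) (ha : ∀ j, a.wires j ≠ 0 → j < C.size) :
    (wireOf ν C.size a).eval z ((build ν C C.size).vals z) = a.eval (sx ν z) (C.val (sx ν z)) := by
  rw [wireOf_eval ν C.size z _ (C.val (sx ν z)) (build_vals ν C z C.size)]
  cases a with
  | var i => rfl
  | const b => rfl
  | gate j =>
    have hj : j < C.size := ha j (by simp [Node.wires])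
    simp only [Node.eval, hj, dite_true]

/-- the size of the small instances -/
lemma exists_small {D n V : ℕ} (hV1 : 1 ≤ V) (hV : V ≤ 2 * n ^ D) (hD : 1 ≤ D) (L : ℕ)
    (hL : 2 * L ^ D < V) (hL1 : 1 ≤ L) :
    ∃ l : ℕ, L ≤ l ∧ l ≤ n ∧ 2 * l ^ D + 1 ≤ V ∧ V ≤ 2 ^ (D + 1) * l ^ D := by
  obtain ⟨l, hl⟩ : ∃ l, l = Nat.findGreatest (fun l => 2 * l ^ D + 1 ≤ V) n := ⟨_, rfl⟩
  have h1 : 2 * l ^ D + 1 ≤ V := by
    rw [hl]
    refine Nat.findGreatest_spec (P := fun l => 2 * l ^ D + 1 ≤ V) (Nat.zero_le n) ?_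
    rw [zero_pow (by omega)]
    omega
  have h2 : l ≤ n := by rw [hl]; exact Nat.findGreatest_le n
  have h3 : V ≤ 2 * (l + 1) ^ D := by
    by_contra hcon
    rw [not_le] at hcon
    have h4 : l + 1 ≤ n := by
      by_contra h5
      have h6 : l = n := by omega
      rw [h6] at h1
      omega
    have h5 : l + 1 ≤ l := by
      conv_rhs => rw [hl]
      exact Nat.le_findGreatest (P := fun l => 2 * l ^ D + 1 ≤ V) h4 (by omega)
    omega
  have h4 : L ≤ l := by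
    by_contra hcon
    have h5 : (l + 1) ^ D ≤ L ^ D := Nat.pow_le_pow_left (by omega) _
    omega
  refine ⟨l, h4, h2, h1, h3.trans ?_⟩
  calc 2 * (l + 1) ^ D ≤ 2 * (2 * l) ^ D :=
        Nat.mul_le_mul_left _ (Nat.pow_le_pow_left (by omega) _)
    _ = 2 ^ (D + 1) * l ^ D := by rw [mul_pow, pow_succ]; ring

theorem not_redOn (d q : ℕ) (hq : 1 ≤ q) (t W : ℕ → ℕ)
    (h : ∃ᶠ n : ℕ in atTop, 2 ^ (q * t (2 * n ^ (d + 2))) * (2 * n ^ (d + 2)) ≤
      (min (W (2 * n ^ (d + 2))) (2 * n ^ (d + 2))) ^ q) : ¬ RedOn d t W := by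
  rintro ⟨f, g, c, hR⟩
  obtain ⟨k, hk⟩ := Pool.Agent.H679R2.WH.all_levels d ((d + 2) * q * c) (2 * q) (by omega)
  obtain ⟨K, hK⟩ : ∃ K, K = (2 * 2 ^ ((d + 3) * q)) ^ c := ⟨_, rfl⟩
  obtain ⟨n₀, h₀⟩ := hk (f k * K) (g k)
  obtain ⟨Z, hZ⟩ : ∃ Z, Z = 2 ^ ((d + 3) * (2 * q - 2)) := ⟨_, rfl⟩
  obtain ⟨L, hL⟩ : ∃ L, L = n₀ + Z + 1 := ⟨_, rfl⟩
  obtain ⟨n, hn1, hn2⟩ := frequently_atTop.1 h ((2 * L ^ (d + 2) + 1) ^ q + 1)
  obtain ⟨M, hM⟩ : ∃ M, M = 2 * n ^ (d + 2) := ⟨_, rfl⟩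
  obtain ⟨V, hV⟩ : ∃ V, V = min (W M) M := ⟨_, rfl⟩
  obtain ⟨T, hT⟩ : ∃ T, T = 2 ^ (q * t M) := ⟨_, rfl⟩
  rw [← hM, ← hV, ← hT] at hn2
  have hT1 : 1 ≤ T := by rw [hT]; exact Nat.one_le_two_pow
  have hVM : V ≤ M := by rw [hV]; exact min_le_right _ _
  have hVW : V ≤ W M := by rw [hV]; exact min_le_left _ _
  have hn : 1 ≤ n := by omega
  have hnM : n ≤ M := by
    have h1 : n ≤ n ^ (d + 2) := Nat.le_self_pow (by omega) n
    omega
  have hMV : M ≤ V ^ q := (Nat.le_mul_of_pos_left _ hT1).trans hn2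
  have hVL : 2 * L ^ (d + 2) < V := by
    by_contra hcon
    rw [not_lt] at hcon
    have h1 : V ^ q ≤ (2 * L ^ (d + 2) + 1) ^ q := Nat.pow_le_pow_left (by omega) _
    omega
  obtain ⟨l, l1, l2, l3, l4⟩ := exists_small (D := d + 2) (n := n) (V := V) (by omega)
    (by rw [← hM]; exact hVM) (by omega) L hVL (by omega)
  have hl : 1 ≤ l := by omega
  -- the reduction
  have hc : Fintype.card (CIdx n n (d + 1)) = M := by rw [card_cidx, hM]
  obtain ⟨A', N', g', r1, r2, r3, r4⟩ := hR k n n M (Fintype.equivFinOfCardEq hc)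
  obtain ⟨e, he⟩ : ∃ e : CIdx n n (d + 1) ≃ Fin M, e = Fintype.equivFinOfCardEq hc := ⟨_, rfl⟩
  rw [← he] at r4
  obtain ⟨ν, hν⟩ : ∃ ν : Fin M → CIdx l l (d + 1) ⊕ Bool, ν = fun j => top d (e.symm j) :=
    ⟨_, rfl⟩
  obtain ⟨a, ha⟩ := wt_sx ν (fun y => e (back l2 y)) (fun j y hj => by
    rw [hν] at hj
    rw [top_back l2 d _ _ hj]
    simp)
  obtain ⟨C, o, c1, c2, c3, c4⟩ := r4 a
  have hB : (M + 2) ^ c ≤ K * l ^ ((d + 2) * q * c) := by
    calc (M + 2) ^ c ≤ (2 * (2 ^ (d + 3) * l ^ (d + 2)) ^ q) ^ c := by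
          refine Nat.pow_le_pow_left ?_ _
          have h1 : M ≤ (2 ^ (d + 3) * l ^ (d + 2)) ^ q :=
            hMV.trans (Nat.pow_le_pow_left l4 q)
          have h2 : 2 ≤ M := by
            have h3 : 1 ≤ n ^ (d + 2) := Nat.one_le_pow _ _ hn
            omega
          omega
      _ = K * l ^ ((d + 2) * q * c) := by
          rw [hK, mul_pow (2 ^ (d + 3)), ← pow_mul, ← pow_mul, mul_pow, mul_pow, mul_pow,
            ← pow_mul, ← pow_mul, ← mul_assoc]
  have hB' : f k * (M + 2) ^ c ≤ f k * K * l ^ ((d + 2) * q * c) := by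
    rw [mul_assoc]
    exact Nat.mul_le_mul_left _ hB
  refine h₀ l (by omega) g' r3 A' N' (r1.trans hB') (r2.trans hB') C.size (build ν C C.size)
    (fun i => wireOf ν C.size (o i)) ?_ ?_ (fun z _ => ?_)
  · have h1 := build_size ν C
    exact (by omega : (build ν C C.size).size ≤ C.size).trans (c2.trans hB')
  · rw [build_prod]
    have h1 : (2 ^ C.nots) ^ (2 * q) ≤ T ^ 2 := by
      calc (2 ^ C.nots) ^ (2 * q) ≤ (2 ^ t M) ^ (2 * q) :=
            Nat.pow_le_pow_left (Nat.pow_le_pow_right (by norm_num) c1) _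
        _ = T ^ 2 := by
            rw [hT, ← pow_mul, ← pow_mul]
            congr 1
            ring
    have hV1 : 1 ≤ V := by omega
    have h2 : T ^ 2 ≤ V ^ (2 * q - 2) := by
      have h3 : T ^ 2 * V ^ 2 ≤ V ^ (2 * q - 2) * V ^ 2 := by
        calc T ^ 2 * V ^ 2 ≤ T ^ 2 * M ^ 2 := Nat.mul_le_mul_left _ (Nat.pow_le_pow_left hVM 2)
          _ = (T * M) ^ 2 := by ring
          _ ≤ (V ^ q) ^ 2 := Nat.pow_le_pow_left hn2 2
          _ = V ^ (2 * q - 2) * V ^ 2 := by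
              rw [← pow_mul, ← pow_add]
              congr 1
              omega
      exact Nat.le_of_mul_le_mul_right h3 (Nat.pow_pos hV1)
    have h4 : 2 ^ ((d + 3) * (2 * q - 2)) ≤ l ^ (d + 2) := by
      rw [← hZ]
      exact (show Z ≤ l by omega).trans (Nat.le_self_pow (by omega) l)
    calc (2 ^ C.nots) ^ (2 * q) ≤ V ^ (2 * q - 2) := h1.trans h2
      _ ≤ (2 ^ (d + 3) * l ^ (d + 2)) ^ (2 * q - 2) := Nat.pow_le_pow_left l4 _
      _ = 2 ^ ((d + 3) * (2 * q - 2)) * l ^ ((d + 2) * (2 * q - 2)) := by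
          rw [mul_pow, ← pow_mul, ← pow_mul]
      _ ≤ l ^ (d + 2) * l ^ ((d + 2) * (2 * q - 2)) := Nat.mul_le_mul_right _ h4
      _ = l ^ ((d + 2) * (2 * q - 1)) := by
          rw [← pow_add]
          congr 1
          obtain ⟨p, rfl⟩ : ∃ p, q = p + 1 := ⟨q - 1, by omega⟩
          have e1 : 2 * (p + 1) - 2 = 2 * p := by omega
          have e2 : 2 * (p + 1) - 1 = 2 * p + 1 := by omega
          rw [e1, e2]
          ring
  · have h1 := ha z
    rw [card_cidx] at h1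
    have h2 := c4 (sx ν z) ⟨h1.1, by omega⟩
    have h3 : (fun i => sx ν z (e i)) = app (top d) z := by
      funext i
      unfold sx sv app
      rw [hν]
      simp
    rw [h3, wsat_top hl l2] at h2
    rw [h2]
    have h4 : (fun i => (wireOf ν C.size (o i)).eval z ((build ν C C.size).vals z)) =
        fun i => (o i).eval (sx ν z) (C.val (sx ν z)) := by
      funext i
      exact wireOf_eval' ν C z (o i) (c3 i)
    rw [h4]

end Pool.Agent.W953.RD
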