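import Mathlib
import Pool.Agent.W953.RD.Low
import Pool.Agent.W953.KC.Any
import Pool.Agent.W953.KC.Pad
import Pool.Agent.H679R2.M1.Main

/-!
# Reductions from the clique problem to satisfiability of short formulas
-/

set_option autoImplicit false

namespace Pool.Agent.W953.RD.CM

open Filter Pool.Agent.H540R2 Pool.Agent.H540R2.Circuit Pool.Agent.W953.NW Pool.Agent.W953.KC
open Pool.Agent.H679R2.M1 (Clause Sat)

variable {n v d q : ℕ}

/-- a numbering of the pairs of vertices -/
noncomputable def pairNo (n : ℕ) : {p : Fin n × Fin n // p.1 < p.2} ≃ Fin (n.choose 2) :=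
  Fintype.equivFinOfCardEq (card_pairs n)

/-- the graph whose edges are the pairs with true bits -/
def graph (x : Fin (n.choose 2) → Bool) : SimpleGraph (Fin n) :=
  SimpleGraph.fromRel (fun i j => ∃ h : i < j, x (pairNo n ⟨(i, j), h⟩) = true)

/-- the number of edges of the graph -/
def edges (x : Fin (n.choose 2) → Bool) : ℕ := (Finset.univ.filter (fun e => x e = true)).card

/-- A truth-table reduction from a problem on graphs with vertex set `Fin n` to the satisfiability
problem for formulas with clauses of at most `d` literals over `v` variables: the circuit `C` gets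
the graph and computes at the nodes `out i c` the bits of `q` formulas; the answer is `ev` of the
satisfiability of these formulas. -/
structure TT (n v d q : ℕ) where
  /-- the circuit -/
  C : Circuit (n.choose 2)
  /-- the node that carries the bit of the clause `c` in the `i`-th formula -/
  out : Fin q → Clause v d → Node (n.choose 2)
  /-- these nodes exist -/
  out_lt : ∀ i c j, (out i c).wires j ≠ 0 → j < C.size
  /-- the evaluation of the answers -/
  ev : (Fin q → Bool) → Bool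

open Classical in
/-- the answer on the graph of `x` -/
noncomputable def TT.answer (R : TT n v d q) (x : Fin (n.choose 2) → Bool) : Bool :=
  R.ev fun i => decide (Sat fun c => (R.out i c).eval x (R.C.val x))

/-- The answer is `true` if there is a clique of `s` vertices and `false` if there is no clique of
`k` vertices. -/
def TT.Right (R : TT n v d q) (s k : ℕ) (x : Fin (n.choose 2) → Bool) : Prop :=
  (¬ (graph x).CliqueFree s → R.answer x = true) ∧ ((graph x).CliqueFree k → R.answer x = false)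

/-- The reduction asks one question and gives back the answer. -/
def TT.ManyOne (R : TT n v d 1) : Prop := R.ev = fun a => a 0

/-- There are nonuniform many-one reductions of fpt size from the clique problem (with gap `s k`
versus `k`) to `p-log-SAT(Γ_{1,d})`. -/
def Red (s : ℕ → ℕ) (d : ℕ) : Prop :=
  ∃ (f g : ℕ → ℕ) (c : ℕ), ∀ k, ∀ n ≥ 2, ∃ v ≤ g k * (Nat.log 2 n + 1),
    ∃ R : TT n v d 1, R.ManyOne ∧ R.C.size ≤ f k * n ^ c ∧ ∀ x, R.Right (s k) k x

/-- There are such reductions with at most `t k n` NOT gates for the graphs with at least `m` and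
less than `m + W k n` edges, for all `m`. -/
def RedOn (s : ℕ → ℕ) (d : ℕ) (t W : ℕ → ℕ → ℕ) : Prop :=
  ∃ (f g : ℕ → ℕ) (c : ℕ), ∀ k, ∀ n ≥ 2, ∃ v ≤ g k * (Nat.log 2 n + 1), ∀ m,
    ∃ R : TT n v d 1, R.ManyOne ∧ R.C.nots ≤ t k n ∧ R.C.size ≤ f k * n ^ c ∧
      ∀ x, m ≤ edges x → edges x < m + W k n → R.Right (s k) k x

lemma manyOne_mk (C : Circuit (n.choose 2)) (o : Fin 1 → Clause v d → Node (n.choose 2))
    (h : ∀ i c j, (o i c).wires j ≠ 0 → j < C.size) :
    TT.ManyOne (⟨C, o, h, fun a => a 0⟩ : TT n v d 1) := rfl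

lemma TT.right_congr {R : TT n v d 1} {R' : TT n v d 1} (h : R.ManyOne) (h' : R'.ManyOne)
    {s k : ℕ} {x : Fin (n.choose 2) → Bool}
    (hx : ∀ c, (R'.out 0 c).eval x (R'.C.val x) = (R.out 0 c).eval x (R.C.val x)) :
    R'.Right s k x ↔ R.Right s k x := by
  have : R'.answer x = R.answer x := by
    unfold TT.answer
    unfold TT.ManyOne at h h'
    rw [h, h']
    beta_reduce
    refine decide_eq_decide.2 ?_
    have : (fun c => (R'.out 0 c).eval x (R'.C.val x)) =
        fun c => (R.out 0 c).eval x (R.C.val x) := funext hx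
    rw [this]
  unfold TT.Right
  rw [this]

lemma log_succ_le {n : ℕ} (hn : 2 ≤ n) : Nat.log 2 n + 1 ≤ n :=
  Nat.log_lt_self 2 (by omega)

lemma card_clause_le {g v n d : ℕ} (hn : 2 ≤ n) (hv : v ≤ g * (Nat.log 2 n + 1)) :
    Fintype.card (Clause v d) ≤ (2 * g + 1) ^ d * n ^ d := by
  refine (Pool.Agent.H679R2.M1.card_clause v d).trans ?_
  rw [← mul_pow]
  refine Nat.pow_le_pow_left ?_ _
  have h1 : v ≤ g * n := hv.trans (Nat.mul_le_mul_left _ (log_succ_le hn))
  calc 2 * v + 1 ≤ 2 * (g * n) + n := by omega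
    _ = (2 * g + 1) * n := by ring

theorem red_iff (s : ℕ → ℕ) (d : ℕ) (t W : ℕ → ℕ → ℕ)
    (hW : ∀ k n, 1 ≤ W k n ∧ W k n ≤ 2 ^ t k n) : RedOn s d t W ↔ Red s d := by
  constructor
  · rintro ⟨f, g, c, h⟩
    refine ⟨fun k => 2 * f k + 2 ^ 19 + 12 * ((2 * g k + 1) ^ d + 1), g, c + d + 26,
      fun k n hn => ?_⟩
    obtain ⟨v, hv, h4⟩ := h k n hn
    choose R hR1 hR2 hR3 hR4 using h4
    obtain ⟨N, hN⟩ : ∃ N, N = n.choose 2 := ⟨_, rfl⟩
    have E := Fintype.equivFin (Clause v d)
    obtain ⟨C', o', q1, q2, q3⟩ := mux_multi (n := n.choose 2) (m := Fintype.card (Clause v d))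
      (Nat.log 2 (n.choose 2) + 1) (f k * n ^ c)
      (Nat.lt_pow_succ_log_self (by norm_num) (n.choose 2)) (fun a => (R a).C) hR3
      (fun a i => (R a).out 0 (E.symm i)) (fun a i j => (R a).out_lt 0 (E.symm i) j)
    refine ⟨v, hv, ⟨C', fun _ c => o' (E c), fun _ c => q2 (E c), fun a => a 0⟩, manyOne_mk _ _ _, ?_,
      fun x => ?_⟩
    · refine q1.trans ?_
      unfold msz
      beta_reduce
      have e1 := pow_two_log (n.choose 2)
      have e2 := tde_pow (n.choose 2)
      have e3 := choose_succ_le hn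
      have e4 := card_clause_le (d := d) hn hv
      rw [← hN] at e1 e2 e3 ⊢
      obtain ⟨B, hB⟩ : ∃ B, B = n ^ 2 := ⟨_, rfl⟩
      obtain ⟨M, hM⟩ : ∃ M, M = Fintype.card (Clause v d) := ⟨_, rfl⟩
      rw [← hB] at e3
      rw [← hM] at e4 ⊢
      have hn1 : 1 ≤ n := by omega
      obtain ⟨G, hG⟩ : ∃ G, G = (2 * g k + 1) ^ d := ⟨_, rfl⟩
      rw [← hG] at e4 ⊢
      obtain ⟨D, hD⟩ : ∃ D, D = n ^ (c + d + 24) := ⟨_, rfl⟩
      have p1 : ∀ i, i ≤ c + d + 24 → n ^ i ≤ D := fun i hi => by
        rw [hD]; exact Nat.pow_le_pow_right hn1 hi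
      obtain ⟨R', hR'⟩ : ∃ R', R' = 2 ^ (Nat.log 2 N + 1) := ⟨_, rfl⟩
      rw [← hR'] at e1 ⊢
      have e5 : R' ≤ 4 * B := by
        have : R' ≤ 2 * N + 4 := by omega
        have h2 : 4 ≤ B := by
          rw [hB]
          calc 4 = 2 ^ 2 := by norm_num
            _ ≤ n ^ 2 := Nat.pow_le_pow_left hn 2
        omega
      have e5' : R' ≤ 2 * B := by
        have h1 : 2 ^ (Nat.log 2 N + 1) ≤ 2 * (N + 1) := by
          have := two_pow_log N
          rw [pow_succ]
          omega
        rw [hR']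
        omega
      have e6 : 2 ^ tde N ≤ 2 ^ 18 * D := by
        refine e2.trans (Nat.mul_le_mul_left _ ?_)
        calc (N + 1) ^ 12 ≤ B ^ 12 := Nat.pow_le_pow_left e3 _
          _ = n ^ 24 := by rw [hB, ← pow_mul]
          _ ≤ D := p1 _ (by omega)
      have e7 : n ^ c ≤ D := p1 _ (by omega)
      have e8 : M + 1 ≤ (G + 1) * D := by
        have h1 : G * n ^ d ≤ G * D := Nat.mul_le_mul_left _ (p1 _ (by omega))
        have h2 : 1 ≤ D := by rw [hD]; exact Nat.one_le_pow _ _ hn1
        have h3 : (G + 1) * D = G * D + D := by ring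
        omega
      calc R' * (f k * n ^ c) + R' * 2 ^ tde N + 6 * R' * (M + 1)
          ≤ (2 * B) * (f k * D) + (2 * B) * (2 ^ 18 * D) + 6 * (2 * B) * ((G + 1) * D) := by
            gcongr
        _ = (2 * f k + 2 ^ 19 + 12 * (G + 1)) * (D * B) := by ring
        _ = (2 * f k + 2 ^ 19 + 12 * (G + 1)) * n ^ (c + d + 26) := by
            rw [hD, hB, ← pow_add]
    · refine (TT.right_congr (R := R (wt x)) (hR1 _) (manyOne_mk _ _ _) (fun c => ?_)).2
        (hR4 (wt x) x le_rfl (by
          have := (hW k n).1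
          have h1 : edges x = wt x := rfl
          omega))
      show (o' (E c)).eval x (C'.val x) = _
      rw [q3 x (E c), Equiv.symm_apply_apply]
  · rintro ⟨f, g, c, h⟩
    refine ⟨fun k => 2 * f k + 2 ^ 20, g, c + 28, fun k n hn => ?_⟩
    obtain ⟨v, hv, R, hR1, hR2, hR3⟩ := h k n hn
    refine ⟨v, hv, fun m => ?_⟩
    obtain ⟨N, hN⟩ : ∃ N, N = n.choose 2 := ⟨_, rfl⟩
    obtain ⟨C', q1, q2, q3⟩ := window_multi R.C m (min (t k n) (Nat.log 2 (n.choose 2) + 1))
    choose o' r1 r2 using fun c : Clause v d => q3 (R.out 0 c) (R.out_lt 0 c)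
    refine ⟨⟨C', fun _ c => o' c, fun _ c => r1 c, fun a => a 0⟩, manyOne_mk _ _ _,
      q1.trans (min_le_left _ _), q2.trans ?_, fun x hx1 hx2 => ?_⟩
    · unfold isz
      beta_reduce
      have e2 := tde_pow (n.choose 2)
      have e3 := choose_succ_le hn
      have e1 : 2 ^ (min (t k n) (Nat.log 2 (n.choose 2) + 1)) ≤ 2 * (n.choose 2 + 1) := by
        refine (Nat.pow_le_pow_right (by norm_num) (min_le_right _ _)).trans ?_
        have := two_pow_log (n.choose 2)
        rw [pow_succ]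
        omega
      obtain ⟨S, hS⟩ : ∃ S, S = R.C.size := ⟨_, rfl⟩
      rw [← hS] at hR2 ⊢
      rw [← hN] at e1 e2 e3 ⊢
      obtain ⟨B, hB⟩ : ∃ B, B = n ^ 2 := ⟨_, rfl⟩
      rw [← hB] at e3
      have hn1 : 1 ≤ n := by omega
      have hB1 : 1 ≤ B := by rw [hB]; exact Nat.one_le_pow _ _ hn1
      obtain ⟨R', hR'⟩ : ∃ R', R' = 2 ^ (min (t k n) (Nat.log 2 N + 1)) := ⟨_, rfl⟩
      rw [← hR'] at e1 ⊢
      have e4 : R' ≤ 2 * B := by omega
      have e6 : 2 ^ tde N ≤ 2 ^ 18 * B ^ 12 :=
        e2.trans (Nat.mul_le_mul_left _ (Nat.pow_le_pow_left e3 _))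
      have e7 : N * (R' * 2 ^ tde N) + R' * 2 ^ tde N ≤ 2 ^ 19 * B ^ 14 := by
        calc N * (R' * 2 ^ tde N) + R' * 2 ^ tde N = (N + 1) * (R' * 2 ^ tde N) := by ring
          _ ≤ B * ((2 * B) * (2 ^ 18 * B ^ 12)) := by gcongr
          _ = 2 ^ 19 * B ^ 14 := by ring
      have e8 : 6 * R' * (N + 1) ≤ 12 * B ^ 14 := by
        calc 6 * R' * (N + 1) ≤ 6 * (2 * B) * B := by gcongr
          _ = 12 * B ^ 2 := by ring
          _ ≤ 12 * B ^ 14 := Nat.mul_le_mul_left _ (Nat.pow_le_pow_right hB1 (by norm_num))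
      have e9 : B ^ 14 ≤ n ^ (c + 28) := by
        rw [hB, ← pow_mul]
        exact Nat.pow_le_pow_right hn1 (by omega)
      have e10 : 2 * S ≤ 2 * f k * n ^ (c + 28) := by
        calc 2 * S ≤ 2 * (f k * n ^ c) := Nat.mul_le_mul_left _ hR2
          _ ≤ 2 * (f k * n ^ (c + 28)) :=
            Nat.mul_le_mul_left _ (Nat.mul_le_mul_left _ (Nat.pow_le_pow_right hn1 (by omega)))
          _ = 2 * f k * n ^ (c + 28) := by ring
      have e11 : (2 * f k + 2 ^ 20) * n ^ (c + 28) =
          2 * f k * n ^ (c + 28) + 2 ^ 20 * n ^ (c + 28) := by ring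
      rw [e11]
      omega
    · refine (TT.right_congr (R := R) hR1 (manyOne_mk _ _ _) (fun c => ?_)).2 (hR3 x)
      refine r2 c x hx1 ?_
      have hx2' : wt x < m + W k n := hx2
      rcases le_total (t k n) (Nat.log 2 (n.choose 2) + 1) with h8 | h8
      · rw [min_eq_left h8]
        have := (hW k n).2
        omega
      · rw [min_eq_right h8]
        have h9 : n.choose 2 < 2 ^ (Nat.log 2 (n.choose 2) + 1) :=
          Nat.lt_pow_succ_log_self (by norm_num) _
        have := wt_le x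
        omega

end Pool.Agent.W953.RD.CM
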