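import Mathlib
import Pool.Agent.W953.RD.CM
import Pool.Agent.W953.KC.Rand

/-!
# No reductions from the clique problem to short formulas on wide windows of edge counts
-/

set_option autoImplicit false

namespace Pool.Agent.W953.RD.CM

open Filter Pool.Agent.H540R2 Pool.Agent.H540R2.Circuit Pool.Agent.W953.NW Pool.Agent.W953.KC
open Pool.Agent.H679R2.M1 (Clause Sat Reduction Promise)

/-- the reduction on small graphs -/
noncomputable def small {n r v d q : ℕ} (P : Finset (Prs n)) (R : TT n v d q) :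
    Reduction r v d q R.C.size where
  C := build (psub (pairNo n) P r) R.C R.C.size
  out := fun i c => wireOf (psub (pairNo n) P r) R.C.size (R.out i c)
  ev := R.ev

lemma small_answer {n r v d q : ℕ} (P : Finset (Prs n)) (R : TT n v d q)
    (z : Sym2 (Fin r) → Bool) :
    (small P R).answer z = R.answer (sx (psub (pairNo n) P r) z) := by
  unfold Reduction.answer TT.answer
  show R.ev _ = R.ev _
  refine congrArg R.ev (funext fun i => ?_)
  refine decide_eq_decide.2 ?_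
  have : (fun c => (wireOf (psub (pairNo n) P r) R.C.size (R.out i c)).eval z
      ((build (psub (pairNo n) P r) R.C R.C.size).vals z)) =
      fun c => (R.out i c).eval (sx (psub (pairNo n) P r) z)
        (R.C.val (sx (psub (pairNo n) P r) z)) := by
    funext c
    exact wireOf_eval' _ _ _ _ (R.out_lt i c)
  exact iff_of_eq (congrArg Sat this)

/-- numbers -/
theorem numbers (ε : ℝ) (hε : 0 < ε) (N₀ : ℕ) : ∀ᶠ n : ℕ in atTop, ∀ W : ℕ,
    (n : ℝ) ^ ε ≤ W → W ≤ n ^ 2 → ∃ r : ℕ, N₀ ≤ r ∧ 3 ≤ r ∧ r ≤ n / 2 ∧ r ^ 2 < W ∧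
      (n : ℝ) ^ (ε / 4) ≤ r ∧ n ≤ r ^ ⌈4 / ε⌉₊ ∧
      ∀ A : ℝ, 0 ≤ A → A ^ (1 + ε) ≤ W → A ≤ (r : ℝ) ^ (2 - ε / (1 + ε)) := by
  set δ : ℝ := ε / (1 + ε) with hδ
  have hε1 : 0 < 1 + ε := by linarith
  have hδε : δ * (1 + ε) = ε := by
    rw [hδ]
    field_simp
  obtain ⟨N₁, hN₁⟩ := eventually_atTop.1 (ev_rpow hε 9)
  filter_upwards [ev_rpow (s := ε / 4) (by positivity) ((N₀ : ℝ) + N₁ + 3),
    eventually_ge_atTop 20] with n hn1 hn3 W hW1 hW2
  have hn0 : (0 : ℝ) < n := by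
    have : (20 : ℝ) ≤ n := by exact_mod_cast hn3
    linarith
  set y : ℝ := (n : ℝ) ^ (ε / 4) with hy
  have hN0 : (0 : ℝ) ≤ N₀ := Nat.cast_nonneg _
  have hN1 : (0 : ℝ) ≤ N₁ := Nat.cast_nonneg _
  have hy3 : 3 ≤ y := by linarith
  have hy4 : y ^ 4 = (n : ℝ) ^ ε := by
    rw [hy, ← Real.rpow_natCast, ← Real.rpow_mul hn0.le]
    congr 1
    push_cast
    ring
  set r : ℕ := Nat.sqrt W / 2 with hr
  have hs1 : Nat.sqrt W * Nat.sqrt W ≤ W := Nat.sqrt_le W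
  have hs2 : W < (Nat.sqrt W + 1) * (Nat.sqrt W + 1) := Nat.lt_succ_sqrt W
  have hr1 : 2 * r ≤ Nat.sqrt W := by omega
  have hr2 : Nat.sqrt W + 1 ≤ 2 * r + 2 := by omega
  have hyr : y ≤ r := by
    have h1 : y ^ 4 ≤ (W : ℝ) := by rw [hy4]; exact hW1
    have h2 : (W : ℝ) ≤ ((2 * r + 2 : ℕ) : ℝ) * ((2 * r + 2 : ℕ) : ℝ) := by
      exact_mod_cast hs2.le.trans (Nat.mul_le_mul hr2 hr2)
    have h3 : y ^ 2 ≤ 2 * r + 2 := by
      by_contra hcon
      push Not at hcon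
      have h4 : (2 * (r : ℝ) + 2) * (2 * r + 2) < y ^ 2 * y ^ 2 :=
        mul_self_lt_mul_self (by positivity) hcon
      have h5 : y ^ 4 = y ^ 2 * y ^ 2 := by ring
      push_cast at h2
      linarith
    nlinarith
  have hr3 : (3 : ℝ) ≤ r := hy3.trans hyr
  have hr3' : 3 ≤ r := by exact_mod_cast hr3
  have hrN : N₀ ≤ r := by
    have : (N₀ : ℝ) ≤ r := by linarith
    exact_mod_cast this
  have hrN1 : N₁ ≤ r := by
    have : (N₁ : ℝ) ≤ r := by linarith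
    exact_mod_cast this
  have H9 := hN₁ r hrN1
  have hr0 : (0 : ℝ) < r := by linarith
  have hW9 : (W : ℝ) ≤ 9 * (r : ℝ) ^ (2 : ℝ) := by
    have h1 : W ≤ 9 * r ^ 2 := by
      have h2 := hs2.le.trans (Nat.mul_le_mul hr2 hr2)
      nlinarith
    have h3 : (W : ℝ) ≤ 9 * (r : ℝ) ^ 2 := by exact_mod_cast h1
    rwa [← Real.rpow_natCast, Nat.cast_ofNat] at h3
  have hsn : Nat.sqrt W ≤ n := by
    by_contra hcon
    push Not at hcon
    have := Nat.mul_lt_mul'' hcon hcon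
    nlinarith
  refine ⟨r, hrN, hr3', by omega, ?_, hyr, ?_, fun A hA hAW => ?_⟩
  · have h2 : (2 * r) * (2 * r) ≤ W := (Nat.mul_le_mul hr1 hr1).trans hs1
    nlinarith
  · have h1 : (n : ℝ) ≤ (r : ℝ) ^ (⌈4 / ε⌉₊ : ℝ) := by
      calc (n : ℝ) = y ^ (4 / ε) := by
            rw [hy, ← Real.rpow_mul hn0.le]
            have : ε / 4 * (4 / ε) = 1 := by field_simp
            rw [this, Real.rpow_one]
        _ ≤ (r : ℝ) ^ (4 / ε) := Real.rpow_le_rpow (by linarith) hyr (by positivity)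
        _ ≤ (r : ℝ) ^ (⌈4 / ε⌉₊ : ℝ) :=
            Real.rpow_le_rpow_of_exponent_le (by linarith) (Nat.le_ceil _)
    rw [Real.rpow_natCast] at h1
    exact_mod_cast h1
  · rw [← Real.rpow_le_rpow_iff hA (by positivity) hε1]
    rw [← Real.rpow_mul hr0.le]
    have e1 : (2 - δ) * (1 + ε) = 2 + ε := by
      rw [sub_mul, hδε]
      ring
    rw [e1, Real.rpow_add hr0]
    calc A ^ (1 + ε) ≤ W := hAW
      _ ≤ 9 * (r : ℝ) ^ (2 : ℝ) := hW9
      _ = (r : ℝ) ^ (2 : ℝ) * 9 := by ring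
      _ ≤ (r : ℝ) ^ (2 : ℝ) * (r : ℝ) ^ ε := by gcongr

open Classical in
theorem low (ε : ℝ) (hε : 0 < ε) (f g s : ℕ → ℕ) (hs : ∀ k, k ≤ s k) (c d : ℕ) :
    ∀ᶠ k : ℕ in atTop, ∃ α : ℝ, 0 < α ∧ ∀ᶠ n : ℕ in atTop, ∀ t W m Q : ℕ,
      (n : ℝ) ^ ε ≤ W → W ≤ n ^ 2 → (((Q + 1) * 2 ^ t : ℕ) : ℝ) ^ (1 + ε) ≤ W →
      25 * m ≤ n ^ 2 →
      ∀ (Ω : Type) [Fintype Ω] (μ : Ω → ℝ), (∀ o, 0 ≤ μ o) → ∑ o, μ o = 1 →
        ∀ (v q : Ω → ℕ) (R : ∀ o, TT n (v o) d (q o)),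
          (∀ o, q o ≤ Q ∧ (R o).C.nots ≤ t ∧ v o ≤ g k * (Nat.log 2 n + 1) ∧
            (R o).C.size ≤ f k * n ^ c) →
          ∃ x : Fin (n.choose 2) → Bool, m ≤ edges x ∧ edges x < m + W ∧
            (¬ (graph x).CliqueFree (s k) ∨ (graph x).CliqueFree k) ∧
            ∑ o ∈ Finset.univ.filter (fun o => (R o).Right (s k) k x), μ o <
              1 / 2 + (n : ℝ) ^ (-α) := by
  obtain ⟨K, hK⟩ : ∃ K, K = ⌈4 / ε⌉₊ := ⟨_, rfl⟩
  have hδ1 : ε / (1 + ε) < 1 := by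
    rw [div_lt_one (by linarith)]
    linarith
  have hδ0 : 0 < ε / (1 + ε) := by positivity
  have hmain := Pool.Agent.H679R2.M1.no_reduction (fun k => f k + 1) g s hs (K * (c + 1)) d
    (2 - ε / (1 + ε)) (by linarith) (by linarith)
  filter_upwards [hmain, eventually_ge_atTop 3] with k hk hk3
  obtain ⟨α', hα', H⟩ := hk
  obtain ⟨N₀, hN₀⟩ := eventually_atTop.1 H
  refine ⟨α' * ε / 4, by positivity, ?_⟩
  filter_upwards [numbers ε hε N₀, eventually_ge_atTop 20] with n hn hn20 t W m Q hW1 hW2 hA hm Ω _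
    μ hμ hμ1 v q R hR
  obtain ⟨r, r1, r2, r3, r4, r5, r6, r7⟩ := hn W hW1 hW2
  rw [← hK] at r6
  have hn0 : (0 : ℝ) < n := by
    have : (20 : ℝ) ≤ n := by exact_mod_cast hn20
    linarith
  have hm' : m ≤ (n / 4) ^ 2 := by
    have h1 : n ≤ 5 * (n / 4) := by omega
    have h2 : n ^ 2 ≤ 25 * (n / 4) ^ 2 := by
      calc n ^ 2 ≤ (5 * (n / 4)) ^ 2 := Nat.pow_le_pow_left h1 2
        _ = 25 * (n / 4) ^ 2 := by ring
    omega
  obtain ⟨P, hPc, hP⟩ := exists_pad (n := n) (r := r) (q := n / 4) (m := m) (by omega) hm'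
  have hr1 : 1 ≤ r := by omega
  have hn1 : n ≤ (f k + 1) * r ^ (K * (c + 1)) := by
    calc n ≤ r ^ K := r6
      _ ≤ r ^ (K * (c + 1)) := Nat.pow_le_pow_right hr1 (Nat.le_mul_of_pos_right _ (by omega))
      _ ≤ (f k + 1) * r ^ (K * (c + 1)) := Nat.le_mul_of_pos_left _ (by omega)
  obtain ⟨z, hz1, hz2⟩ := (hN₀ r r1).2 Ω μ hμ hμ1 v q (fun o => (R o).C.size)
    (fun o => small P (R o)) (fun o => by
      refine (hR o).2.2.1.trans (Nat.mul_le_mul_left _ (Nat.succ_le_succ ?_))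
      exact Nat.log_mono_right hn1)
    (fun o => by
      show (((q o + 1) * ((build (psub (pairNo n) P r) (R o).C (R o).C.size).fanins.map
        (· + 1)).prod : ℕ) : ℝ) ≤ _
      rw [build_prod]
      refine le_trans ?_ (r7 _ (Nat.cast_nonneg _) hA)
      exact_mod_cast Nat.mul_le_mul (Nat.succ_le_succ (hR o).1)
        (Nat.pow_le_pow_right (by norm_num) (hR o).2.1))
    (fun o => by
      show (build (psub (pairNo n) P r) (R o).C (R o).C.size).size +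
        (build (psub (pairNo n) P r) (R o).C (R o).C.size).fanins.sum ≤ _
      rw [build_size]
      calc (R o).C.size ≤ f k * n ^ c := (hR o).2.2.2
        _ ≤ (f k + 1) * (r ^ K) ^ (c + 1) := by
            refine Nat.mul_le_mul (Nat.le_succ _) ?_
            exact (Nat.pow_le_pow_left r6 c).trans
              (Nat.pow_le_pow_right (Nat.pow_pos hr1) (Nat.le_succ c))
        _ = (f k + 1) * r ^ (K * (c + 1)) := by rw [← pow_mul])
  obtain ⟨h1, h2⟩ := ones_le (pairNo n) P hP z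
  rw [hPc] at h1 h2
  obtain ⟨x, hx⟩ : ∃ x, x = sx (psub (pairNo n) P r) z := ⟨_, rfl⟩
  have hcl : ∀ j, 3 ≤ j → ((graph x).CliqueFree j ↔
      (SimpleGraph.fromEdgeSet {c | z c = true}).CliqueFree j) := by
    intro j hj
    rw [hx]
    exact clique_iff (pairNo n) P hP (by omega) j hj z
  have hk' := hcl k hk3
  have hs' := hcl (s k) (hk3.trans (hs k))
  refine ⟨x, by rw [hx]; exact h1, ?_, ?_, ?_⟩
  · have h3 : edges x = wt (sx (psub (pairNo n) P r) z) := by rw [hx]; rfl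
    omega
  · rw [hk', hs']
    exact hz1
  · have h3 := hz2 (Finset.univ.filter (fun o => (R o).Right (s k) k x)) (fun o ho => by
      rw [Finset.mem_filter] at ho
      rw [small_answer, ← hx]
      refine ⟨fun h => ho.2.1 ?_, fun h => ho.2.2 ?_⟩
      · rw [hs']
        exact h
      · rw [hk']
        exact h)
    refine lt_of_lt_of_le h3 ?_
    have h4 : (r : ℝ) ^ (-α') ≤ ((n : ℝ) ^ (ε / 4)) ^ (-α') :=
      Real.rpow_le_rpow_of_nonpos (by positivity) r5 (by linarith)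
    have h5 : ((n : ℝ) ^ (ε / 4)) ^ (-α') = (n : ℝ) ^ (-(α' * ε / 4)) := by
      rw [← Real.rpow_mul hn0.le]
      congr 1
      ring
    rw [h5] at h4
    linarith

end Pool.Agent.W953.RD.CM
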