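import Mathlib
import Pool.Agent.W953.RD.Multi
import Pool.Agent.W953.KC.Any
import Pool.Agent.W953.KC.NMc
import Pool.Agent.H559R6.Distill

/-!
# OR-distillation with few NOT gates on few and on many slices
-/

set_option autoImplicit false

namespace Pool.Agent.W953.RD

open Filter Pool.Agent.H540R2 Pool.Agent.H540R2.Circuit Pool.Agent.W953.NW Pool.Agent.W953.KC
open Pool.Agent.H559R4 (Sat)

/-- The circuit `C` with the outputs `o` maps the incidence matrices of `T` formulas to strings of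
length `m`, and if the number `k` of ones satisfies `P k` then the string is in `R` if and only if
some formula is satisfiable. -/
def Distills {T M n m N : ℕ} (e : Fin T × Fin M × Fin n × Bool ≃ Fin N) (C : Circuit N)
    (o : Fin m → Node N) (R : Set (Fin m → Bool)) (P : ℕ → Prop) : Prop :=
  (∀ i j, (o i).wires j ≠ 0 → j < C.size) ∧
  ∀ x : Fin N → Bool, P (wt x) →
    ((fun i => (o i).eval x (C.val x)) ∈ R ↔ ∃ i, Sat (fun l => x (e (i, l))))

/-- CNF-SAT has a nonuniform OR-distillation: for formulas with `n` variables and `M` clauses there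
are `m ≤ (M n + 2) ^ c` and a set `R` of strings of length `m` such that for every `T` a circuit
with at most `(T M n + 2) ^ c` gates distills `T` formulas into one string. -/
def Dist : Prop := ∃ c : ℕ, ∀ n M : ℕ, ∃ m, m ≤ (M * n + 2) ^ c ∧ ∃ R : Set (Fin m → Bool),
  ∀ (T N : ℕ) (e : Fin T × Fin M × Fin n × Bool ≃ Fin N),
    ∃ (C : Circuit N) (o : Fin m → Node N), C.size ≤ (T * M * n + 2) ^ c ∧
      Distills e C o R (fun _ => True)

/-- The same for circuits with at most `s n M T` NOT gates that, for every `a`, have to be right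
only on the formulas with at least `a`, less than `a + W n M T` occurrences of literals. -/
def DistOn (s W : ℕ → ℕ → ℕ → ℕ) : Prop := ∃ c : ℕ, ∀ n M : ℕ, ∃ m, m ≤ (M * n + 2) ^ c ∧
  ∃ R : Set (Fin m → Bool), ∀ (T N : ℕ) (e : Fin T × Fin M × Fin n × Bool ≃ Fin N) (a : ℕ),
    ∃ (C : Circuit N) (o : Fin m → Node N), C.nots ≤ s n M T ∧
      C.size ≤ (T * M * n + 2) ^ c ∧ Distills e C o R (fun k => a ≤ k ∧ k < a + W n M T)

lemma card_N {T M n N : ℕ} (e : Fin T × Fin M × Fin n × Bool ≃ Fin N) :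
    N = 2 * (T * M * n) := by
  have h := Fintype.card_congr e
  simp only [Fintype.card_prod, Fintype.card_fin, Fintype.card_bool] at h
  rw [← h]
  ring

lemma log_bound {N B : ℕ} (hN : N + 2 ≤ 2 * B) : 2 ^ (Nat.log 2 N + 1) ≤ 4 * B := by
  have := Pool.Agent.W953.KC.two_pow_log N
  rw [pow_succ]
  omega

lemma tde_bound {N B : ℕ} (hN : N + 2 ≤ 2 * B) : 2 ^ tde N ≤ 2 ^ 30 * B ^ 12 := by
  refine (Pool.Agent.W953.KC.tde_pow N).trans ?_
  calc 2 ^ 18 * (N + 1) ^ 12 ≤ 2 ^ 18 * (2 * B) ^ 12 :=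
        Nat.mul_le_mul_left _ (Nat.pow_le_pow_left (by omega) _)
    _ = 2 ^ 30 * B ^ 12 := by ring

theorem dist_iff (s W : ℕ → ℕ → ℕ → ℕ) (hW : ∀ n M T, 1 ≤ W n M T ∧ W n M T ≤ 2 ^ s n M T) :
    DistOn s W ↔ Dist := by
  constructor
  · rintro ⟨c, h⟩
    refine ⟨c + 60, fun n M => ?_⟩
    obtain ⟨m, hm, R, h1⟩ := h n M
    refine ⟨m, hm.trans (Nat.pow_le_pow_right (by omega) (by omega)), R, fun T N e => ?_⟩
    have hN := card_N e
    choose C o c1 c2 c3 using h1 T N e
    by_cases hz : T * M * n = 0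
    · refine ⟨C 0, o 0, (c2 0).trans (Nat.pow_le_pow_right (by omega) (by omega)), (c3 0).1,
        fun x _ => (c3 0).2 x ⟨Nat.zero_le _, ?_⟩⟩
      have h2 := wt_le x
      have h3 := (hW n M T).1
      omega
    · obtain ⟨C', o', q1, q2, q3⟩ := mux_multi (n := N) (m := m) (Nat.log 2 N + 1)
        ((T * M * n + 2) ^ c) (Nat.lt_pow_succ_log_self (by norm_num) N) C c2 o
        (fun a => (c3 a).1)
      refine ⟨C', o', q1.trans ?_, q2, fun x _ => ?_⟩
      · unfold msz
        obtain ⟨B, hB⟩ : ∃ B, B = T * M * n + 2 := ⟨_, rfl⟩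
        have hT : 1 ≤ T := by
          rcases Nat.eq_zero_or_pos T with h | h
          · exfalso; apply hz; rw [h]; simp
          · exact h
        have hmB : m ≤ B ^ c := by
          refine hm.trans (Nat.pow_le_pow_left ?_ c)
          have : M * n ≤ T * M * n := by
            rw [mul_assoc]
            exact Nat.le_mul_of_pos_left _ hT
          omega
        have e1 := log_bound (N := N) (B := B) (by omega)
        have e2 := tde_bound (N := N) (B := B) (by omega)
        have hB2 : 2 ≤ B := by omega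
        rw [← hB]
        obtain ⟨Q, hQ⟩ : ∃ Q, Q = 2 ^ (Nat.log 2 N + 1) := ⟨_, rfl⟩
        rw [← hQ] at e1 ⊢
        have p0 : 1 ≤ B ^ c := Nat.one_le_pow _ _ (by omega)
        have p1 : B ^ 12 ≤ B ^ (c + 12) := Nat.pow_le_pow_right (by omega) (by omega)
        have p2 : B ^ c ≤ B ^ (c + 12) := Nat.pow_le_pow_right (by omega) (by omega)
        calc Q * B ^ c + Q * 2 ^ tde N + 6 * Q * (m + 1)
            ≤ (4 * B) * B ^ (c + 12) + (4 * B) * (2 ^ 30 * B ^ (c + 12)) +
                6 * (4 * B) * (B ^ (c + 12) + B ^ (c + 12)) := by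
              gcongr
              · exact e2.trans (Nat.mul_le_mul_left _ p1)
              · exact hmB.trans p2
              · exact p0.trans p2
          _ = (4 + 2 ^ 32 + 48) * B ^ (c + 13) := by ring
          _ ≤ B ^ 47 * B ^ (c + 13) := by
              refine Nat.mul_le_mul_right _ ?_
              calc 4 + 2 ^ 32 + 48 ≤ 2 ^ 47 := by norm_num
                _ ≤ B ^ 47 := Nat.pow_le_pow_left hB2 47
          _ = B ^ (c + 60) := by ring
      · have h5 := (c3 (wt x)).2 x ⟨le_rfl, by have := (hW n M T).1; omega⟩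
        rw [← h5]
        have h6 : (fun i => (o' i).eval x (C'.val x)) =
            fun i => (o (wt x) i).eval x ((C (wt x)).val x) := funext (q3 x)
        rw [h6]
  · rintro ⟨c, h⟩
    refine ⟨c + 60, fun n M => ?_⟩
    obtain ⟨m, hm, R, h1⟩ := h n M
    refine ⟨m, hm.trans (Nat.pow_le_pow_right (by omega) (by omega)), R, fun T N e a => ?_⟩
    have hN := card_N e
    obtain ⟨C, o, h4, h5⟩ := h1 T N e
    obtain ⟨C', q1, q2, q3⟩ := window_multi C a (min (s n M T) (Nat.log 2 N + 1))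
    choose o' r1 r2 using fun i : Fin m => q3 (o i) (h5.1 i)
    refine ⟨C', o', q1.trans (min_le_left _ _), q2.trans ?_, r1, fun x hx => ?_⟩
    · unfold isz
      obtain ⟨B, hB⟩ : ∃ B, B = T * M * n + 2 := ⟨_, rfl⟩
      have e1 := log_bound (N := N) (B := B) (by omega)
      have e2 := tde_bound (N := N) (B := B) (by omega)
      have hB2 : 2 ≤ B := by omega
      rw [← hB] at h4 ⊢
      obtain ⟨Q, hQ⟩ : ∃ Q, Q = 2 ^ (min (s n M T) (Nat.log 2 N + 1)) := ⟨_, rfl⟩
      have e3 : Q ≤ 4 * B := by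
        rw [hQ]
        exact (Nat.pow_le_pow_right (by norm_num) (min_le_right _ _)).trans e1
      rw [← hQ]
      have p0 : 1 ≤ B ^ c := Nat.one_le_pow _ _ (by omega)
      have p1 : B ^ c ≤ B ^ (c + 14) := Nat.pow_le_pow_right (by omega) (by omega)
      have p2 : B ^ 14 ≤ B ^ (c + 14) := Nat.pow_le_pow_right (by omega) (by omega)
      have p3 : B ^ 2 ≤ B ^ 14 := Nat.pow_le_pow_right (by omega) (by norm_num)
      have e8 : Q * 2 ^ tde N ≤ (4 * B) * (2 ^ 30 * B ^ 12) := Nat.mul_le_mul e3 e2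
      have e9 : N * (Q * 2 ^ tde N) + Q * 2 ^ tde N = (N + 1) * (Q * 2 ^ tde N) := by ring
      have e10 : (N + 1) * (Q * 2 ^ tde N) ≤ (2 * B) * ((4 * B) * (2 ^ 30 * B ^ 12)) :=
        Nat.mul_le_mul (by omega) e8
      have e11 : 6 * Q * (N + 1) ≤ 6 * (4 * B) * (2 * B) :=
        Nat.mul_le_mul (Nat.mul_le_mul_left _ e3) (by omega)
      have e12 : 6 * (4 * B) * (2 * B) = 48 * B ^ 2 := by ring
      have e13 : (2 * B) * ((4 * B) * (2 ^ 30 * B ^ 12)) = 2 ^ 33 * B ^ 14 := by ring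
      calc N * (Q * 2 ^ tde N) + Q * 2 ^ tde N + 6 * Q * (N + 1) + 2 * C.size
          ≤ (2 ^ 33 + 50) * B ^ (c + 14) := by omega
        _ ≤ B ^ 46 * B ^ (c + 14) := by
            refine Nat.mul_le_mul_right _ ?_
            calc 2 ^ 33 + 50 ≤ 2 ^ 46 := by norm_num
              _ ≤ B ^ 46 := Nat.pow_le_pow_left hB2 46
        _ = B ^ (c + 60) := by ring
    · have h6 := h5.2 x trivial
      rw [← h6]
      have h7 : (fun i => (o' i).eval x (C'.val x)) = fun i => (o i).eval x (C.val x) := by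
        funext i
        refine r2 i x hx.1 ?_
        rcases le_total (s n M T) (Nat.log 2 N + 1) with h8 | h8
        · rw [min_eq_left h8]
          have := (hW n M T).2
          omega
        · rw [min_eq_right h8]
          have h9 : N < 2 ^ (Nat.log 2 N + 1) := Nat.lt_pow_succ_log_self (by norm_num) N
          have := wt_le x
          omega
      rw [h7]

/-! ### the lower bound -/

/-- all nodes of a built circuit -/
lemma wireOf_eval2 {n : ℕ} {ι : Type} (ν : Fin n → ι ⊕ Bool) (C : Circuit n) (z : ι → Bool)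
    (a : Node n) (ha : ∀ j, a.wires j ≠ 0 → j < C.size) :
    (wireOf ν C.size a).eval z ((build ν C C.size).vals z) = a.eval (sx ν z) (C.val (sx ν z)) := by
  rw [wireOf_eval ν C.size z _ (C.val (sx ν z)) (build_vals ν C z C.size)]
  cases a with
  | var i => rfl
  | const b => rfl
  | gate j =>
    have hj : j < C.size := ha j (by simp [Node.wires])
    simp only [Node.eval, hj, dite_true]

theorem not_distOn (s W : ℕ → ℕ → ℕ → ℕ) (h : ∀ c : ℕ, ∃ᶠ n : ℕ in atTop, ∃ M T : ℕ,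
      n ^ c ≤ M ∧ (T * M * n + 2) ^ c ≤ 2 ^ n ∧ 2 ^ s n M T * (M * n + 2) ^ c ≤ T ∧
      2 ^ s n M T * (M * n + 2) ^ c ≤ W n M T) : ¬ DistOn s W := by
  rintro ⟨c, hD⟩
  obtain ⟨c₀, hc₀⟩ := Pool.Agent.H559R6.dist_main (1 / 2) (by norm_num)
  obtain ⟨n, ⟨M, T, h1, h2, h3, h4⟩, h5, hn⟩ :=
    ((h (4 * c + 4 + c₀)).and_eventually (hc₀.and (eventually_ge_atTop 1))).exists
  obtain ⟨m, hm, R, hR⟩ := hD n M
  obtain ⟨σ, hσ⟩ : ∃ σ, σ = 2 ^ s n M T := ⟨_, rfl⟩
  have hσ1 : 1 ≤ σ := by rw [hσ]; exact Nat.one_le_two_pow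
  rw [← hσ] at h3 h4
  obtain ⟨b, hb⟩ : ∃ b, b = M * n + 2 := ⟨_, rfl⟩
  rw [← hb] at h3 h4 hm
  have hb2 : 2 ≤ b := by omega
  have hM : 1 ≤ M := (Nat.one_le_pow _ _ hn).trans h1
  have hbc : b ^ (c + 1) ≤ b ^ (4 * c + 4 + c₀) := Nat.pow_le_pow_right (by omega) (by omega)
  have hbc3 : b ^ (c + 3) ≤ b ^ (4 * c + 4 + c₀) := Nat.pow_le_pow_right (by omega) (by omega)
  have hm1 : m + 1 ≤ b ^ (c + 1) := by
    have e1 : 1 ≤ b ^ c := Nat.one_le_pow _ _ (by omega)
    calc m + 1 ≤ b ^ c + b ^ c := by omega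
      _ = 2 * b ^ c := by ring
      _ ≤ b * b ^ c := Nat.mul_le_mul_right _ hb2
      _ = b ^ (c + 1) := by ring
  obtain ⟨t, ht⟩ : ∃ t, t = (m + 1) * σ := ⟨_, rfl⟩
  have htT : t ≤ T := by
    calc t ≤ b ^ (c + 1) * σ := by rw [ht]; exact Nat.mul_le_mul_right _ hm1
      _ = σ * b ^ (c + 1) := by ring
      _ ≤ σ * b ^ (4 * c + 4 + c₀) := Nat.mul_le_mul_left _ hbc
      _ ≤ T := h3
  have htW : t * (M * (n * 2)) < W n M T := by
    have e1 : M * (n * 2) < b ^ 2 := by
      have : M * (n * 2) = 2 * (M * n) := by ring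
      nlinarith
    calc t * (M * (n * 2)) < t * b ^ 2 := by
          refine Nat.mul_lt_mul_of_pos_left e1 ?_
          rw [ht]
          exact Nat.mul_pos (by omega) (by omega)
      _ ≤ (b ^ (c + 1) * σ) * b ^ 2 := by
          rw [ht]
          exact Nat.mul_le_mul_right _ (Nat.mul_le_mul_right _ hm1)
      _ = σ * b ^ (c + 3) := by ring
      _ ≤ σ * b ^ (4 * c + 4 + c₀) := Nat.mul_le_mul_left _ hbc3
      _ ≤ W n M T := h4
  obtain ⟨e, -⟩ : ∃ e : Fin T × Fin M × Fin n × Bool ≃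
      Fin (Fintype.card (Fin T × Fin M × Fin n × Bool)), True := ⟨Fintype.equivFin _, trivial⟩
  obtain ⟨C, o, c1, c2, c3, c4⟩ := hR T _ e 0
  obtain ⟨ν, hν⟩ : ∃ ν : Fin (Fintype.card (Fin T × Fin M × Fin n × Bool)) →
      (Fin t × Fin M × Fin n × Bool) ⊕ Bool, ν = fun j =>
        if h : (e.symm j).1.val < t then Sum.inl (⟨(e.symm j).1.val, h⟩, (e.symm j).2)
        else Sum.inr false := ⟨_, rfl⟩
  have hsx : ∀ (φ : Fin t × Fin M × Fin n × Bool → Bool) (i : Fin T)
      (l : Fin M × Fin n × Bool), sx ν φ (e (i, l)) =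
        if h : i.val < t then φ (⟨i.val, h⟩, l) else false := by
    intro φ i l
    unfold sx sv
    rw [hν]
    simp only [Equiv.symm_apply_apply]
    by_cases h : i.val < t
    · rw [dif_pos h, dif_pos h]
      rfl
    · rw [dif_neg h, dif_neg h]
      rfl
  have hwt : ∀ φ : Fin t × Fin M × Fin n × Bool → Bool, wt (sx ν φ) ≤ t * (M * (n * 2)) := by
    intro φ
    classical
    unfold wt
    have e1 : (Finset.univ.filter (fun j => sx ν φ j = true)) ⊆
        Finset.univ.image (fun y : Fin t × Fin M × Fin n × Bool =>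
          e (⟨y.1.val, lt_of_lt_of_le y.1.isLt htT⟩, y.2)) := by
      intro j hj
      rw [Finset.mem_filter] at hj
      rw [Finset.mem_image]
      obtain ⟨⟨i, l⟩, rfl⟩ := e.surjective j
      have e2 := hj.2
      rw [hsx] at e2
      split_ifs at e2 with h
      exact ⟨(⟨i.val, h⟩, l), Finset.mem_univ _, rfl⟩
    refine (Finset.card_le_card e1).trans (Finset.card_image_le.trans ?_)
    rw [Finset.card_univ]
    simp [Fintype.card_prod]
  have key := h5 (M := M) (t := t) (m := m) (build ν C C.size)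
    (fun i => wireOf ν C.size (o i)) R (Or.inl (fun φ => by
      have e1 := c4 (sx ν φ) ⟨Nat.zero_le _, by have := hwt φ; omega⟩
      have e2 : (fun i => (wireOf ν C.size (o i)).eval φ ((build ν C C.size).vals φ)) =
          fun i => (o i).eval (sx ν φ) (C.val (sx ν φ)) := by
        funext i
        exact wireOf_eval2 ν C φ (o i) (c3 i)
      rw [e2, e1]
      constructor
      · rintro ⟨i, a, hi⟩
        by_cases h : i.val < t
        · refine ⟨⟨i.val, h⟩, a, fun j => ?_⟩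
          obtain ⟨v, hv⟩ := hi j
          beta_reduce at hv
          rw [hsx, dif_pos h] at hv
          exact ⟨v, hv⟩
        · obtain ⟨v, hv⟩ := hi ⟨0, hM⟩
          beta_reduce at hv
          rw [hsx, dif_neg h] at hv
          exact absurd hv (by simp)
      · rintro ⟨i, a, hi⟩
        refine ⟨⟨i.val, lt_of_lt_of_le i.isLt htT⟩, a, fun j => ?_⟩
        obtain ⟨v, hv⟩ := hi j
        refine ⟨v, ?_⟩
        beta_reduce
        rw [hsx, dif_pos (show (⟨i.val, lt_of_lt_of_le i.isLt htT⟩ : Fin T).val < t from i.isLt)]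
        exact hv))
    (le_trans (Nat.pow_le_pow_right hn (by omega)) h1) (by
      rw [build_prod, ht, hσ]
      exact Nat.mul_le_mul_left _ (Nat.pow_le_pow_right (by norm_num) c1))
  have e1 := build_size ν C
  have e2 : (build ν C C.size).size + (build ν C C.size).fanins.sum + m = C.size + m := by
    rw [e1]
  rw [e2] at key
  -- arithmetic
  obtain ⟨B, hB⟩ : ∃ B, B = T * M * n + 2 := ⟨_, rfl⟩
  rw [← hB] at h2 c2
  have hB2 : 2 ≤ B := by omega
  have hT : 1 ≤ T := by
    have : 1 ≤ t := by rw [ht]; exact Nat.mul_pos (by omega) (by omega)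
    omega
  have hbB : b ≤ B := by
    have : M * n ≤ T * M * n := by
      rw [mul_assoc]
      exact Nat.le_mul_of_pos_left _ hT
    omega
  have h6 : C.size + m ≤ B ^ (c + 1) := by
    have e3 : m ≤ B ^ c := hm.trans (Nat.pow_le_pow_left hbB c)
    calc C.size + m ≤ B ^ c + B ^ c := by omega
      _ = 2 * B ^ c := by ring
      _ ≤ B * B ^ c := Nat.mul_le_mul_right _ hB2
      _ = B ^ (c + 1) := by ring
  have h7 : (B ^ (c + 1)) ^ 4 ≤ 2 ^ n := by
    calc (B ^ (c + 1)) ^ 4 = B ^ (4 * c + 4) := by rw [← pow_mul]; congr 1; ring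
      _ ≤ B ^ (4 * c + 4 + c₀) := Nat.pow_le_pow_right (by omega) (by omega)
      _ ≤ 2 ^ n := h2
  have h8 : (((B ^ (c + 1) : ℕ) : ℝ)) ^ 4 ≤ (2 : ℝ) ^ n := by exact_mod_cast h7
  have h9 : (2 : ℝ) ^ ((1 - 1 / 2 : ℝ) * n) ≤ ((B ^ (c + 1) : ℕ) : ℝ) :=
    key.trans (by exact_mod_cast h6)
  have h10 : ((2 : ℝ) ^ ((1 - 1 / 2 : ℝ) * n)) ^ 2 = (2 : ℝ) ^ n := by
    rw [← Real.rpow_natCast, ← Real.rpow_mul (by norm_num), ← Real.rpow_natCast]
    congr 1
    push_cast
    ring
  have h11 : (2 : ℝ) ^ n ≤ ((B ^ (c + 1) : ℕ) : ℝ) ^ 2 := by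
    rw [← h10]
    exact pow_le_pow_left₀ (by positivity) h9 2
  have h12 : (2 : ℝ) ≤ ((B ^ (c + 1) : ℕ) : ℝ) := by
    have : 2 ≤ B ^ (c + 1) := hB2.trans (Nat.le_self_pow (by omega) B)
    exact_mod_cast this
  obtain ⟨y, hy⟩ : ∃ y : ℝ, y = ((B ^ (c + 1) : ℕ) : ℝ) := ⟨_, rfl⟩
  rw [← hy] at h8 h11 h12
  have h13 : 4 ≤ y ^ 2 := by nlinarith
  have h14 : y ^ 2 * 4 ≤ y ^ 2 * y ^ 2 := mul_le_mul_of_nonneg_left h13 (by positivity)
  have h15 : y ^ 4 = y ^ 2 * y ^ 2 := by ring
  linarith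

end Pool.Agent.W953.RD
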